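import Mathlib
import Pool.Agent.H744R2.Falc.Vol

set_option autoImplicit false

/-! An averaged collision bound gives positive measure for almost every parameter. -/

namespace Pool.Agent.Y270.FD

open MeasureTheory Set Metric Filter Topology
open scoped ENNReal

theorem ae_pos {Ω : Type*} [MeasurableSpace Ω] (P : Measure Ω) [IsProbabilityMeasure P]
    (I : Set ℝ) (f : ℝ → Ω → ℝ) (hf : Measurable (Function.uncurry f))
    (D : ℝ → Set ℝ) (hD : ∀ t, IsCompact (D t)) (hfD : ∀ t, ∀ᵐ ω ∂P, f t ω ∈ D t)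
    (δ : ℕ → ℝ) (hδ : ∀ j, 0 < δ j) (hδ0 : Tendsto δ atTop (𝓝 0)) (C : ℝ≥0∞) (hC : C ≠ ⊤)
    (h : ∀ j, ∫⁻ t in I, (P.prod P) {p | |f t p.1 - f t p.2| ≤ δ j} ≤
      ENNReal.ofReal (δ j) * C) :
    ∀ᵐ t ∂(volume.restrict I), 0 < volume (D t) := by
  have hδe : ∀ j, ENNReal.ofReal (δ j) ≠ 0 := fun j => by
    rw [Ne, ENNReal.ofReal_eq_zero, not_le]; exact hδ j
  set g : ℕ → ℝ → ℝ≥0∞ := fun j t =>
    (ENNReal.ofReal (δ j))⁻¹ * (P.prod P) {p | |f t p.1 - f t p.2| ≤ δ j} with hg
  have hgm : ∀ j, Measurable (g j) := by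
    intro j
    have hS : MeasurableSet {q : ℝ × (Ω × Ω) | |f q.1 q.2.1 - f q.1 q.2.2| ≤ δ j} := by
      refine measurableSet_le ?_ measurable_const
      have h1 : Measurable fun q : ℝ × (Ω × Ω) => f q.1 q.2.1 :=
        hf.comp (measurable_fst.prodMk (measurable_fst.comp measurable_snd))
      have h2 : Measurable fun q : ℝ × (Ω × Ω) => f q.1 q.2.2 :=
        hf.comp (measurable_fst.prodMk (measurable_snd.comp measurable_snd))
      exact (h1.sub h2).norm
    have := measurable_measure_prodMk_left (ν := P.prod P) hS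
    exact this.const_mul _
  have hint : ∀ j, ∫⁻ t in I, g j t ≤ C := by
    intro j
    rw [lintegral_const_mul' _ _ (ENNReal.inv_ne_top.2 (hδe j))]
    calc (ENNReal.ofReal (δ j))⁻¹ * ∫⁻ t in I, (P.prod P) {p | |f t p.1 - f t p.2| ≤ δ j}
        ≤ (ENNReal.ofReal (δ j))⁻¹ * (ENNReal.ofReal (δ j) * C) := by gcongr; exact h j
      _ = C := by
        rw [← mul_assoc, ENNReal.inv_mul_cancel (hδe j) ENNReal.ofReal_ne_top, one_mul]
  have hfat : ∫⁻ t in I, liminf (fun j => g j t) atTop ≤ C := by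
    refine (lintegral_liminf_le hgm).trans ?_
    refine (liminf_le_liminf (Eventually.of_forall hint)).trans ?_
    simp
  have hae : ∀ᵐ t ∂(volume.restrict I), liminf (fun j => g j t) atTop < ⊤ := by
    refine ae_lt_top (Measurable.liminf hgm) (ne_top_of_le_ne_top hC hfat)
  filter_upwards [hae] with t ht
  by_contra h0
  rw [not_lt, nonpos_iff_eq_zero] at h0
  -- pick a finite bound attained infinitely often
  obtain ⟨M, hM1, hM2⟩ := exists_between ht
  have hfreq : ∃ᶠ j in atTop, g j t < M := frequently_lt_of_liminf_lt (by isBoundedDefault) hM1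
  have hten : Tendsto (fun j => volume (cthickening (δ j / 2) (D t)) * M) atTop
      (𝓝 (volume (D t) * M)) := by
    refine ENNReal.Tendsto.mul_const ?_ (Or.inr hM2.ne)
    have h1 := tendsto_measure_cthickening_of_isCompact (μ := (volume : Measure ℝ)) (hD t)
    refine h1.comp ?_
    have := hδ0.div_const 2
    simpa using this
  rw [h0, zero_mul] at hten
  have hev : ∀ᶠ j in atTop, volume (cthickening (δ j / 2) (D t)) * M < 1 :=
    hten.eventually_lt_const (by norm_num)
  obtain ⟨j, hj1, hj2⟩ := (hfreq.and_eventually hev).exists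
  have hmf : Measurable (f t) := hf.comp measurable_prodMk_left
  have hk := Pool.Agent.H744R2.Falc.VolAux.key P (f t) hmf (cthickening (δ j / 2) (D t)) (δ j / 2)
    (by have := hδ j; positivity) ((hfD t).mono fun ω hω => by
      rw [← Real.closedBall_eq_Icc]
      exact closedBall_subset_cthickening hω _)
  have e1 : 2 * (δ j / 2) = δ j := by ring
  rw [e1] at hk
  have hk2 : (1 : ℝ≥0∞) ≤ volume (cthickening (δ j / 2) (D t)) * g j t := by
    calc (1 : ℝ≥0∞) = (ENNReal.ofReal (δ j))⁻¹ * ENNReal.ofReal (δ j) :=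
          (ENNReal.inv_mul_cancel (hδe j) ENNReal.ofReal_ne_top).symm
      _ ≤ (ENNReal.ofReal (δ j))⁻¹ * (volume (cthickening (δ j / 2) (D t)) *
            (P.prod P) {p | |f t p.1 - f t p.2| ≤ δ j}) := by gcongr
      _ = volume (cthickening (δ j / 2) (D t)) * g j t := by
          simp only [hg]; ring
  have hk3 : (1 : ℝ≥0∞) ≤ volume (cthickening (δ j / 2) (D t)) * M :=
    hk2.trans (by gcongr)
  exact absurd hj2 (not_lt.2 hk3)

end Pool.Agent.Y270.FD
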