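import Mathlib
import Pool.Agent.H789R2.FR.Smooth
import Pool.Agent.H789R2.FR.GB

set_option autoImplicit false

/-! Sphere facts in all dimensions `n ≥ 1`. -/

namespace Pool.Agent.Y270.FD

open MeasureTheory Measure Set Metric Complex
open scoped ENNReal Pointwise RealInnerProductSpace
open Pool.Agent.H789R2.FR

theorem D_lower1 (n : ℕ) (hn : 1 ≤ n) : ∃ c : ℝ, 0 < c ∧ ∀ R : ℝ, 1 ≤ R → ∀ y : E n,
    ‖y‖ = 1 → c * R ^ (-((n : ℝ) - 1) / 2) ≤ D R y := by
  have hpi := Real.pi_pos
  set V : ℝ := (volume : Measure (E n)).real (ball 0 1) with hV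
  have hVpos : 0 < V := by
    rw [hV, measureReal_def]
    exact ENNReal.toReal_pos (measure_ball_pos _ _ one_pos).ne' measure_ball_lt_top.ne
  refine ⟨Real.exp (-(1 / 4)) * (1 / 2) ^ n * V / ((3 / 2) ^ (n - 1) * Real.sqrt Real.pi),
    by positivity, ?_⟩
  intro R hR y hy
  have hR0 : 0 < R := by linarith
  have hs : 0 < Real.sqrt R := Real.sqrt_pos.2 hR0
  have hs1 : 1 ≤ Real.sqrt R := Real.one_le_sqrt.2 hR
  set ρ : ℝ := 1 / (2 * Real.sqrt R) with hρ
  have hρ0 : 0 < ρ := by positivity
  have hρ1 : ρ ≤ 1 / 2 := by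
    rw [hρ]; exact one_div_le_one_div_of_le (by norm_num) (by linarith)
  have hρR : R * ρ ^ 2 = 1 / 4 := by
    rw [hρ, div_pow, one_pow, mul_pow, Real.sq_sqrt hR0.le]; field_simp; norm_num
  set f : E n → ℝ≥0∞ := (ball y (1 / 2)).indicator
    (fun x => ENNReal.ofReal (Real.exp (-R * ‖y - x‖ ^ 2))) with hf
  have hfm : Measurable f := by
    apply Measurable.indicator _ measurableSet_ball
    exact (Continuous.measurable (by fun_prop)).ennreal_ofReal
  have hleft : ENNReal.ofReal (Real.exp (-(1 / 4)) * (ρ ^ n * V)) ≤ ∫⁻ x, f x := by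
    calc ENNReal.ofReal (Real.exp (-(1 / 4)) * (ρ ^ n * V))
        = ∫⁻ x in ball y ρ, ENNReal.ofReal (Real.exp (-(1 / 4))) := by
          rw [setLIntegral_const, ENNReal.ofReal_mul (Real.exp_pos _).le]
          congr 1
          rw [addHaar_ball_of_pos _ _ hρ0, hV, measureReal_def, ENNReal.ofReal_mul (by positivity),
            ENNReal.ofReal_toReal measure_ball_lt_top.ne]
          simp
      _ ≤ ∫⁻ x in ball y ρ, f x := by
          apply setLIntegral_mono' measurableSet_ball
          intro x hx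
          have hx2 : x ∈ ball y (1 / 2) := ball_subset_ball hρ1 hx
          rw [hf, indicator_of_mem hx2]
          apply ENNReal.ofReal_le_ofReal
          apply Real.exp_le_exp.2
          rw [mem_ball, dist_comm, dist_eq_norm] at hx
          have : ‖y - x‖ ^ 2 ≤ ρ ^ 2 := by
            have := norm_nonneg (y - x)
            nlinarith
          nlinarith
      _ ≤ _ := setLIntegral_le_lintegral _ _
  have hright : ∫⁻ x, f x ≤ ENNReal.ofReal ((3 / 2) ^ (n - 1) * Real.sqrt (Real.pi / R)) *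
      ENNReal.ofReal (D R y) := by
    rw [polar (by omega) f hfm, ofReal_D R y hR0.le, ← lintegral_const_mul]
    · apply lintegral_mono_ae
      filter_upwards [sg_ae n] with w hw
      have hgi : Integrable fun r : ℝ => Real.exp (-R * (r - 1) ^ 2) := by
        have := (integrable_exp_neg_mul_sq hR0).comp_sub_right 1
        exact this
      have hgv : ∫ r : ℝ, Real.exp (-R * (r - 1) ^ 2) = Real.sqrt (Real.pi / R) := by
        rw [← integral_gaussian R]
        exact integral_sub_right_eq_self (fun r : ℝ => Real.exp (-R * r ^ 2)) 1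
      calc ∫⁻ r in Ioi (0 : ℝ), ENNReal.ofReal (r ^ (n - 1)) * f (r • w)
          ≤ ∫⁻ r in Ioi (0 : ℝ), ENNReal.ofReal ((3 / 2) ^ (n - 1) *
              Real.exp (-(R / 2) * ‖y - w‖ ^ 2) * Real.exp (-R * (r - 1) ^ 2)) := by
            apply setLIntegral_mono' measurableSet_Ioi
            intro r hr
            have hr0 : 0 < r := hr
            by_cases hb : r • w ∈ ball y (1 / 2)
            · rw [hf, indicator_of_mem hb, ← ENNReal.ofReal_mul (by positivity)]
              apply ENNReal.ofReal_le_ofReal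
              rw [mem_ball, dist_eq_norm] at hb
              have h1 : |r - 1| < 1 / 2 := by
                have h2 := abs_norm_sub_norm_le (r • w) y
                rw [norm_smul, hw, hy, mul_one, Real.norm_eq_abs, abs_of_pos hr0] at h2
                linarith
              rw [abs_lt] at h1
              have h3 : ‖y - r • w‖ ^ 2 = (r - 1) ^ 2 + r * ‖y - w‖ ^ 2 := by
                rw [norm_sub_sq_real, norm_sub_sq_real, norm_smul, hw, hy, inner_smul_right,
                  Real.norm_eq_abs, abs_of_pos hr0]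
                ring
              rw [mul_assoc]
              apply mul_le_mul
              · exact pow_le_pow_left₀ hr0.le (by linarith) _
              · rw [← Real.exp_add]
                apply Real.exp_le_exp.2
                rw [h3]
                have h4 : 0 ≤ R * ‖y - w‖ ^ 2 := by positivity
                nlinarith
              · positivity
              · positivity
            · rw [hf, indicator_of_notMem hb, mul_zero]
              exact bot_le
        _ ≤ ∫⁻ r : ℝ, ENNReal.ofReal ((3 / 2) ^ (n - 1) *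
              Real.exp (-(R / 2) * ‖y - w‖ ^ 2) * Real.exp (-R * (r - 1) ^ 2)) :=
            setLIntegral_le_lintegral _ _
        _ = ENNReal.ofReal ((3 / 2) ^ (n - 1) *
              Real.exp (-(R / 2) * ‖y - w‖ ^ 2) * Real.sqrt (Real.pi / R)) := by
            rw [← ofReal_integral_eq_lintegral_ofReal]
            · rw [integral_const_mul, hgv]
            · exact hgi.const_mul _
            · exact Filter.Eventually.of_forall fun r => by positivity
        _ = _ := by
            rw [← ENNReal.ofReal_mul (by positivity)]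
            congr 1; ring
    · exact (Continuous.measurable (by fun_prop)).ennreal_ofReal
  have h := hleft.trans hright
  rw [← ENNReal.ofReal_mul (by positivity),
    ENNReal.ofReal_le_ofReal_iff (mul_nonneg (by positivity) (D_nonneg _ _))] at h
  have hρn : ρ ^ n = (1 / 2) ^ n * R ^ (-((n : ℝ) / 2)) := by
    rw [hρ, show 1 / (2 * Real.sqrt R) = (1 / 2) * (Real.sqrt R)⁻¹ by field_simp, mul_pow]
    congr 1
    rw [Real.sqrt_eq_rpow, ← Real.rpow_neg hR0.le, ← Real.rpow_natCast, ← Real.rpow_mul hR0.le]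
    congr 1; ring
  have hsq : Real.sqrt (Real.pi / R) = Real.sqrt Real.pi * R ^ (-(1 / 2 : ℝ)) := by
    rw [Real.sqrt_div' _ hR0.le, Real.sqrt_eq_rpow R, Real.rpow_neg hR0.le, div_eq_mul_inv]
  rw [hρn, hsq] at h
  have hRh : R ^ (-(1 / 2 : ℝ)) * R ^ (1 / 2 : ℝ) = 1 := by
    rw [← Real.rpow_add hR0]; norm_num
  have hRn : R ^ (-((n : ℝ) / 2)) * R ^ (1 / 2 : ℝ) = R ^ (-((n : ℝ) - 1) / 2) := by
    rw [← Real.rpow_add hR0]; congr 1; ring
  rw [div_mul_eq_mul_div, div_le_iff₀ (by positivity), ← hRn]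
  have hp : 0 < R ^ (1 / 2 : ℝ) := by positivity
  calc Real.exp (-(1 / 4)) * (1 / 2) ^ n * V * (R ^ (-((n : ℝ) / 2)) * R ^ (1 / 2 : ℝ))
      = (Real.exp (-(1 / 4)) * ((1 / 2) ^ n * R ^ (-((n : ℝ) / 2)) * V)) * R ^ (1 / 2 : ℝ) := by ring
    _ ≤ ((3 / 2) ^ (n - 1) * (Real.sqrt Real.pi * R ^ (-(1 / 2 : ℝ))) * D R y) *
        R ^ (1 / 2 : ℝ) := mul_le_mul_of_nonneg_right h hp.le
    _ = (3 / 2) ^ (n - 1) * Real.sqrt Real.pi * D R y * (R ^ (-(1 / 2 : ℝ)) * R ^ (1 / 2 : ℝ)) := by
        ring
    _ = _ := by rw [hRh]; ring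



/-- the transform of the sphere measure is radial -/
theorem T_radial {n : ℕ} (x y : E n) (h : ‖x‖ = ‖y‖) :
    T (fun _ : E n => (1 : ℂ)) x = T (fun _ : E n => (1 : ℂ)) y := by
  set L : E n ≃ₗᵢ[ℝ] E n := (ℝ ∙ (x - y))ᗮ.reflection with hL
  have hLy : L x = y := Submodule.reflection_sub h
  have hmp := sg_inv L
  have hemb : MeasurableEmbedding L := L.toHomeomorph.measurableEmbedding
  unfold T
  rw [← hmp.integral_comp hemb (fun w : E n => Complex.exp (-((⟪y, w⟫ : ℝ) : ℂ) * I) * (1 : ℂ))]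
  congr 1
  ext w
  rw [← hLy, L.inner_map_map]

theorem T_le1 (n : ℕ) (x : E n) : ‖T (fun _ : E n => (1 : ℂ)) x‖ ≤ (sg n).real univ := by
  have := sg_finite n
  unfold T
  calc ‖∫ w, Complex.exp (-((⟪x, w⟫ : ℝ) : ℂ) * I) * (1 : ℂ) ∂(sg n)‖
      ≤ ∫ _w, (1 : ℝ) ∂(sg n) := by
        apply norm_integral_le_of_norm_le (integrable_const _)
        refine Filter.Eventually.of_forall fun w => ?_
        have : -((⟪x, w⟫ : ℝ) : ℂ) * I = ((-⟪x, w⟫ : ℝ) : ℂ) * I := by push_cast; ring
        rw [this, norm_mul, Complex.norm_exp_ofReal_mul_I]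
        simp
    _ = (sg n).real univ := by simp

theorem decay1 (n : ℕ) (hn : 1 ≤ n) : ∃ C : ℝ, 0 < C ∧ ∀ x : E n,
    ‖T (fun _ : E n => (1 : ℂ)) x‖ ≤ C * (1 + ‖x‖) ^ (-(((n : ℝ) - 1) / 2)) := by
  have := sg_finite n
  set t : ℝ := (sg n).real univ with ht
  have ht0 : 0 ≤ t := measureReal_nonneg
  rcases Nat.lt_or_ge n 2 with h2 | h2
  · have hn1 : n = 1 := by omega
    subst hn1
    refine ⟨t + 1, by positivity, fun x => ?_⟩
    have := T_le1 1 x
    simp only [Nat.cast_one, sub_self, zero_div, neg_zero, Real.rpow_zero, mul_one]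
    linarith
  · obtain ⟨C, hC, hS⟩ := decay n h2
    have hd0 : 0 ≤ ((n : ℝ) - 1) / 2 := by
      have : (2 : ℝ) ≤ n := by exact_mod_cast h2
      linarith
    set d : ℝ := ((n : ℝ) - 1) / 2 with hd
    have h3 : -((n : ℝ) - 1) / 2 = -d := by simp only [hd]; ring
    rw [h3] at hS
    refine ⟨(C + t) * 2 ^ d, by positivity, fun x => ?_⟩
    rcases le_or_gt 1 ‖x‖ with h1 | h1
    · have hx : x ≠ 0 := by rintro rfl; simp at h1; linarith
      have hx0 : 0 < ‖x‖ := by linarith
      refine (hS x hx).trans ?_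
      have h5 : ‖x‖ ^ (-d) ≤ 2 ^ d * (1 + ‖x‖) ^ (-d) := by
        rw [Real.rpow_neg hx0.le, Real.rpow_neg (by positivity), ← div_eq_mul_inv,
          le_div_iff₀ (by positivity), inv_mul_le_iff₀ (by positivity),
          ← Real.mul_rpow hx0.le (by norm_num)]
        exact Real.rpow_le_rpow (by positivity) (by linarith) hd0
      calc C * ‖x‖ ^ (-d) ≤ C * (2 ^ d * (1 + ‖x‖) ^ (-d)) := by gcongr
        _ ≤ (C + t) * (2 ^ d * (1 + ‖x‖) ^ (-d)) := by
            gcongr
            linarith
        _ = _ := by ring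
    · have h5 : (1 : ℝ) ≤ 2 ^ d * (1 + ‖x‖) ^ (-d) := by
        rw [Real.rpow_neg (by positivity), ← div_eq_mul_inv, one_le_div (by positivity)]
        exact Real.rpow_le_rpow (by positivity) (by linarith) hd0
      calc ‖T (fun _ : E n => (1 : ℂ)) x‖ ≤ t := T_le1 n x
        _ ≤ (C + t) * 1 := by linarith
        _ ≤ (C + t) * (2 ^ d * (1 + ‖x‖) ^ (-d)) := by gcongr
        _ = _ := by ring

end Pool.Agent.Y270.FD
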