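import Mathlib
import Pool.Agent.Y270.FD.Sph

set_option autoImplicit false

/-! The pointwise comparison between the collision length and the telescoping kernel. -/

namespace Pool.Agent.Y270.FD

open MeasureTheory Set Metric Filter Topology
open scoped ENNReal RealInnerProductSpace
open Pool.Agent.H789R2.FR

/-- dyadic scales -/
noncomputable def tau (κ : ℝ) (j : ℕ) : ℝ := κ * (1 / 2) ^ j

lemma tau_pos {κ : ℝ} (hκ : 0 < κ) (j : ℕ) : 0 < tau κ j := by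
  unfold tau; positivity

lemma tau_succ (κ : ℝ) (j : ℕ) : tau κ (j + 1) = tau κ j / 2 := by
  unfold tau; rw [pow_succ]; ring

lemma tau_zero (κ : ℝ) : tau κ 0 = κ := by simp [tau]

lemma tau_anti {κ : ℝ} (hκ : 0 < κ) {i j : ℕ} (h : i ≤ j) : tau κ j ≤ tau κ i := by
  unfold tau
  have : ((1:ℝ) / 2) ^ j ≤ (1 / 2) ^ i := pow_le_pow_of_le_one (by norm_num) (by norm_num) h
  gcongr

lemma tau_le {κ : ℝ} (hκ : 0 < κ) (j : ℕ) : tau κ j ≤ κ := by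
  have := tau_anti hκ (Nat.zero_le j)
  rwa [tau_zero] at this

/-- spherical Gaussian average -/
noncomputable def W {n : ℕ} (a : ℝ) (z1 z2 : E n) : ℝ :=
  ∫ w, Real.exp (-(‖z1 - ‖z2‖ • w‖ ^ 2 / a ^ 2)) ∂(sg n)

lemma W_nonneg {n : ℕ} (a : ℝ) (z1 z2 : E n) : 0 ≤ W a z1 z2 :=
  integral_nonneg fun _ => (Real.exp_pos _).le

lemma W_lower (n : ℕ) (hn : 1 ≤ n) (c0 R : ℝ) (hc0 : 0 < c0) : ∃ c : ℝ, 0 < c ∧
    ∀ (a : ℝ) (z1 z2 : E n), 0 < a → a ≤ c0 → c0 ≤ ‖z1‖ → ‖z1‖ ≤ R → c0 ≤ ‖z2‖ → ‖z2‖ ≤ R →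
      c * a⁻¹ * Real.exp (-((‖z1‖ - ‖z2‖) ^ 2 / a ^ 2)) ≤ (a ^ n)⁻¹ * W a z1 z2 := by
  obtain ⟨c, hc, hD⟩ := D_lower1 n hn
  by_cases hR0 : R < c0
  · exact ⟨1, one_pos, fun a z1 z2 _ _ h1 h2 _ _ => absurd (h1.trans h2) (not_le.2 hR0)⟩
  rw [not_lt] at hR0
  have hRp : 0 < R := lt_of_lt_of_le hc0 hR0
  have hn1 : (1 : ℝ) ≤ n := by exact_mod_cast hn
  refine ⟨c * (2 * R ^ 2) ^ (-((n : ℝ) - 1) / 2), by positivity, ?_⟩
  intro a z1 z2 ha hac h1 h1' h2 h2'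
  have hz1 : 0 < ‖z1‖ := lt_of_lt_of_le hc0 h1
  have hz2 : 0 < ‖z2‖ := lt_of_lt_of_le hc0 h2
  set u : E n := (‖z1‖)⁻¹ • z1 with hu
  have hun : ‖u‖ = 1 := by
    rw [hu, norm_smul, norm_inv, norm_norm, inv_mul_cancel₀ hz1.ne']
  have hz1u : z1 = ‖z1‖ • u := by
    rw [hu, smul_smul, mul_inv_cancel₀ hz1.ne', one_smul]
  set r1 := ‖z1‖ with hr1
  set r2 := ‖z2‖ with hr2
  have e1 : W a z1 z2 = Real.exp (-((r1 - r2) ^ 2 / a ^ 2)) * D (2 * r1 * r2 / a ^ 2) u := by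
    unfold W D
    rw [← integral_const_mul]
    apply integral_congr_ae
    filter_upwards [sg_ae n] with w hw
    rw [← Real.exp_add]
    congr 1
    have h3 : ‖z1 - r2 • w‖ ^ 2 = (r1 - r2) ^ 2 + r1 * r2 * ‖u - w‖ ^ 2 := by
      rw [norm_sub_sq_real, norm_sub_sq_real, norm_smul, hw, hun, inner_smul_right,
        Real.norm_eq_abs, abs_of_pos hz2, ← hr1]
      have : ⟪z1, w⟫ = r1 * ⟪u, w⟫ := by
        conv_lhs => rw [hz1u]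
        rw [inner_smul_left]; rfl
      rw [this]
      ring
    have h4 : ‖z1 - ‖z2‖ • w‖ ^ 2 = (r1 - r2) ^ 2 + r1 * r2 * ‖u - w‖ ^ 2 := h3
    rw [h4]
    field_simp
    ring
  have hge1 : 1 ≤ 2 * r1 * r2 / a ^ 2 := by
    rw [one_le_div (by positivity)]
    have h5 : a * a ≤ r1 * r2 := mul_le_mul (hac.trans h1) (hac.trans h2) ha.le hz1.le
    nlinarith
  have hDl := hD _ hge1 u hun
  have hpow : (2 * R ^ 2) ^ (-((n : ℝ) - 1) / 2) * a ^ ((n : ℝ) - 1) ≤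
      (2 * r1 * r2 / a ^ 2) ^ (-((n : ℝ) - 1) / 2) := by
    have h6 : a ^ ((n : ℝ) - 1) = (a ^ 2)⁻¹ ^ (-((n : ℝ) - 1) / 2) := by
      rw [Real.inv_rpow (by positivity), ← Real.rpow_neg (by positivity),
        ← Real.rpow_natCast a 2, ← Real.rpow_mul ha.le]
      congr 1
      push_cast
      ring
    rw [h6, ← Real.mul_rpow (by positivity) (by positivity), ← div_eq_mul_inv]
    apply Real.rpow_le_rpow_of_nonpos (by positivity)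
    · gcongr ?_ / _
      have : r1 * r2 ≤ R * R := mul_le_mul h1' h2' hz2.le hRp.le
      nlinarith
    · linarith
  rw [e1]
  have han : (a ^ n)⁻¹ * a ^ ((n : ℝ) - 1) = a⁻¹ := by
    rw [Real.rpow_sub ha, Real.rpow_natCast, Real.rpow_one]
    field_simp
  calc c * (2 * R ^ 2) ^ (-((n : ℝ) - 1) / 2) * a⁻¹ * Real.exp (-((r1 - r2) ^ 2 / a ^ 2))
      = (a ^ n)⁻¹ * (Real.exp (-((r1 - r2) ^ 2 / a ^ 2)) *
        (c * ((2 * R ^ 2) ^ (-((n : ℝ) - 1) / 2) * a ^ ((n : ℝ) - 1)))) := by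
        rw [← han]; ring
    _ ≤ (a ^ n)⁻¹ * (Real.exp (-((r1 - r2) ^ 2 / a ^ 2)) *
        (c * (2 * r1 * r2 / a ^ 2) ^ (-((n : ℝ) - 1) / 2))) := by gcongr
    _ ≤ (a ^ n)⁻¹ * (Real.exp (-((r1 - r2) ^ 2 / a ^ 2)) * D (2 * r1 * r2 / a ^ 2) u) := by
        gcongr

/-- one term of the telescoping kernel -/
noncomputable def trm {n : ℕ} (κ : ℝ) (j : ℕ) (z1 z2 : E n) (C : ℝ) : ℝ :=
  (tau κ j ^ n)⁻¹ * W (tau κ j) z1 z2 *
    (Real.exp (-(C ^ 2 / tau κ j ^ 2)) - Real.exp (-(C ^ 2 / tau κ (j + 1) ^ 2)))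

/-- the telescoping kernel -/
noncomputable def ker {n : ℕ} (κ : ℝ) (J : ℕ) (z1 z2 : E n) (C : ℝ) : ℝ :=
  ∑ j ∈ Finset.range (J + 1), trm κ j z1 z2 C +
    (tau κ (J + 1) ^ n)⁻¹ * W (tau κ (J + 1)) z1 z2 * Real.exp (-(C ^ 2 / tau κ (J + 1) ^ 2))

lemma trm_nonneg {n : ℕ} {κ : ℝ} (hκ : 0 < κ) (j : ℕ) (z1 z2 : E n) (C : ℝ) :
    0 ≤ trm κ j z1 z2 C := by
  unfold trm
  have h1 := tau_pos hκ j
  have h2 := tau_pos hκ (j + 1)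
  have hW := W_nonneg (tau κ j) z1 z2
  apply mul_nonneg (by positivity)
  rw [sub_nonneg]
  apply Real.exp_le_exp.2
  apply neg_le_neg
  have h3 : tau κ (j + 1) ≤ tau κ j := tau_anti hκ (Nat.le_succ j)
  gcongr

lemma last_nonneg {n : ℕ} {κ : ℝ} (hκ : 0 < κ) (j : ℕ) (z1 z2 : E n) (C : ℝ) :
    0 ≤ (tau κ j ^ n)⁻¹ * W (tau κ j) z1 z2 * Real.exp (-(C ^ 2 / tau κ j ^ 2)) := by
  have h1 := tau_pos hκ j
  have hW := W_nonneg (tau κ j) z1 z2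
  positivity

lemma ker_nonneg {n : ℕ} {κ : ℝ} (hκ : 0 < κ) (J : ℕ) (z1 z2 : E n) (C : ℝ) :
    0 ≤ ker κ J z1 z2 C := by
  unfold ker
  exact add_nonneg (Finset.sum_nonneg fun j _ => trm_nonneg hκ j z1 z2 C)
    (last_nonneg hκ _ _ _ _)

end Pool.Agent.Y270.FD
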