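import Mathlib
import Pool.Agent.Y270.FD.Geo

set_option autoImplicit false

/-! The pointwise comparison, main estimate. -/

namespace Pool.Agent.Y270.FD

open MeasureTheory Set Metric Filter Topology
open scoped ENNReal RealInnerProductSpace
open Pool.Agent.H789R2.FR

lemma exists_scale {κ : ℝ} (J : ℕ) (x : ℝ) (h1 : tau κ (J + 1) < x) (h2 : x ≤ κ) :
    ∃ j ≤ J, tau κ (j + 1) < x ∧ x ≤ tau κ j := by
  classical
  have hex : ∃ k, tau κ k < x := ⟨J + 1, h1⟩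
  set k := Nat.find hex with hk
  have hk1 : tau κ k < x := Nat.find_spec hex
  have hkJ : k ≤ J + 1 := Nat.find_min' hex h1
  have hk0 : k ≠ 0 := by
    intro h0
    rw [h0, tau_zero] at hk1
    linarith
  obtain ⟨j, hj⟩ := Nat.exists_eq_succ_of_ne_zero hk0
  refine ⟨j, by omega, ?_, ?_⟩
  · rw [← Nat.succ_eq_add_one, ← hj]; exact hk1
  · by_contra hcon
    rw [not_le] at hcon
    have := Nat.find_min' hex hcon
    omega

theorem geo (n : ℕ) (hn : 1 ≤ n) (c0 R κ l1 l2 : ℝ) (hc0 : 0 < c0) (hκ : 0 < κ) (hκc : κ ≤ c0)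
    (hl1 : 0 < l1) (hl : l1 ≤ l2) :
    ∃ M : ℝ, 0 < M ∧ ∀ (J : ℕ) (z1 z2 : E n) (h1 h2 : ℝ), c0 ≤ ‖z1‖ → ‖z1‖ ≤ R → c0 ≤ ‖z2‖ →
      ‖z2‖ ≤ R → c0 ≤ h1 → h1 ≤ R → c0 ≤ h2 → h2 ≤ R →
      volume ({t : ℝ | |(‖z1‖ ^ 2 + t ^ 2 * h1 ^ 2) - (‖z2‖ ^ 2 + t ^ 2 * h2 ^ 2)| ≤
        tau κ (J + 1)} ∩ Icc l1 l2) ≤
        ENNReal.ofReal (tau κ (J + 1) * (M * (1 + ker κ J z1 z2 (h1 - h2)))) := by
  by_cases hR0 : R < c0
  · exact ⟨1, one_pos, fun J z1 z2 h1 h2 a b _ _ _ _ _ _ => absurd (a.trans b) (not_le.2 hR0)⟩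
  rw [not_lt] at hR0
  have hRp : 0 < R := lt_of_lt_of_le hc0 hR0
  obtain ⟨c, hc, hW⟩ := W_lower n hn c0 R hc0
  set M1 : ℝ := (1 + 2 * R * l2 ^ 2) / (2 * c0) with hM1
  have hM1p : 0 < M1 := by positivity
  set X : ℝ := Real.exp (M1 ^ 2 + 1) with hX
  have hXp : 0 < X := Real.exp_pos _
  have hXi : X * (Real.exp (-M1 ^ 2) * Real.exp (-1)) = 1 := by
    rw [hX, ← Real.exp_add, ← Real.exp_add]
    rw [show M1 ^ 2 + 1 + (-M1 ^ 2 + -1) = 0 by ring, Real.exp_zero]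
  set Y : ℝ := 1 - Real.exp (-(3 / 4)) with hY
  have hYp : 0 < Y := by
    rw [hY, sub_pos, ← Real.exp_zero]
    exact Real.exp_lt_exp.2 (by norm_num)
  have hll : 0 ≤ l2 - l1 := by linarith
  refine ⟨(l2 - l1) * X / c + 2 * X / (l1 * c0 * c * Y) + 1 / (l1 * c0 * κ), by positivity, ?_⟩
  set M : ℝ := (l2 - l1) * X / c + 2 * X / (l1 * c0 * c * Y) + 1 / (l1 * c0 * κ) with hM
  have hMa : (l2 - l1) * X / c ≤ M := by
    have : 0 ≤ 2 * X / (l1 * c0 * c * Y) := by positivity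
    have : 0 ≤ 1 / (l1 * c0 * κ) := by positivity
    rw [hM]; linarith
  have hMb : 2 * X / (l1 * c0 * c * Y) ≤ M := by
    have : 0 ≤ (l2 - l1) * X / c := by positivity
    have : 0 ≤ 1 / (l1 * c0 * κ) := by positivity
    rw [hM]; linarith
  have hMc : 1 / (l1 * c0 * κ) ≤ M := by
    have : 0 ≤ (l2 - l1) * X / c := by positivity
    have : 0 ≤ 2 * X / (l1 * c0 * c * Y) := by positivity
    rw [hM]; linarith
  have hMp : 0 < M := lt_of_lt_of_le (by positivity) hMc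
  intro J z1 z2 h1 h2 hz1 hz1' hz2 hz2' hh1 hh1' hh2 hh2'
  set δ : ℝ := tau κ (J + 1) with hδ
  have hδp : 0 < δ := tau_pos hκ _
  set C : ℝ := h1 - h2 with hC
  set S : Set ℝ := {t : ℝ | |(‖z1‖ ^ 2 + t ^ 2 * h1 ^ 2) - (‖z2‖ ^ 2 + t ^ 2 * h2 ^ 2)| ≤ δ} ∩
    Icc l1 l2 with hS
  have hkn : 0 ≤ ker κ J z1 z2 C := ker_nonneg hκ J z1 z2 C
  rcases S.eq_empty_or_nonempty with hSe | ⟨t0, ht0, ht0l⟩
  · rw [hSe, measure_empty]; exact zero_le
  rw [Set.mem_ofPred_eq] at ht0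
  -- trivial bound
  have hv1 : volume S ≤ ENNReal.ofReal (l2 - l1) := by
    calc volume S ≤ volume (Icc l1 l2) := measure_mono inter_subset_right
      _ = _ := Real.volume_Icc
  -- transversal bound
  have hv2 : C ≠ 0 → volume S ≤ ENNReal.ofReal (δ / (l1 * c0 * |C|)) := by
    intro hC0
    have hCp : 0 < |C| := abs_pos.2 hC0
    have hsub : S ⊆ Icc (t0 - δ / (2 * l1 * c0 * |C|)) (t0 + δ / (2 * l1 * c0 * |C|)) := by
      rintro t ⟨ht, htl⟩
      rw [Set.mem_ofPred_eq] at ht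
      have e1 : |(t ^ 2 - t0 ^ 2) * (h1 ^ 2 - h2 ^ 2)| ≤ 2 * δ := by
        have : (t ^ 2 - t0 ^ 2) * (h1 ^ 2 - h2 ^ 2) =
          ((‖z1‖ ^ 2 + t ^ 2 * h1 ^ 2) - (‖z2‖ ^ 2 + t ^ 2 * h2 ^ 2)) -
          ((‖z1‖ ^ 2 + t0 ^ 2 * h1 ^ 2) - (‖z2‖ ^ 2 + t0 ^ 2 * h2 ^ 2)) := by ring
        rw [this]
        exact (abs_sub _ _).trans (by linarith)
      have e2 : (t ^ 2 - t0 ^ 2) * (h1 ^ 2 - h2 ^ 2) = (t - t0) * ((t + t0) * ((h1 + h2) * C)) := by
        rw [hC]; ring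
      have hs1 : 2 * l1 ≤ t + t0 := by linarith [htl.1, ht0l.1]
      have hs2 : 2 * c0 ≤ h1 + h2 := by linarith
      rw [e2, abs_mul, abs_mul, abs_mul, abs_of_pos (by linarith : 0 < t + t0),
        abs_of_pos (by linarith : 0 < h1 + h2)] at e1
      have e3 : |t - t0| * (2 * l1 * (2 * c0 * |C|)) ≤ 2 * δ := by
        refine le_trans ?_ e1
        exact mul_le_mul_of_nonneg_left (mul_le_mul hs1 (mul_le_mul_of_nonneg_right hs2 hCp.le)
          (by positivity) (by linarith)) (abs_nonneg _)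
      have e4 : |t - t0| ≤ δ / (2 * l1 * c0 * |C|) := by
        rw [le_div_iff₀ (by positivity)]
        nlinarith
      rw [abs_le] at e4
      constructor <;> linarith [e4.1, e4.2]
    calc volume S ≤ volume (Icc (t0 - δ / (2 * l1 * c0 * |C|)) (t0 + δ / (2 * l1 * c0 * |C|))) :=
          measure_mono hsub
      _ = _ := by
          rw [Real.volume_Icc]
          congr 1
          field_simp
          ring
  -- the radial difference is controlled
  have hrad : |‖z1‖ - ‖z2‖| * (2 * c0) ≤ δ + 2 * R * l2 ^ 2 * |C| := by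
    have e1 : |‖z1‖ ^ 2 - ‖z2‖ ^ 2| ≤ δ + l2 ^ 2 * (2 * R * |C|) := by
      have : ‖z1‖ ^ 2 - ‖z2‖ ^ 2 = ((‖z1‖ ^ 2 + t0 ^ 2 * h1 ^ 2) - (‖z2‖ ^ 2 + t0 ^ 2 * h2 ^ 2)) -
        t0 ^ 2 * ((h1 + h2) * C) := by rw [hC]; ring
      rw [this]
      refine (abs_sub _ _).trans (add_le_add ht0 ?_)
      rw [abs_mul, abs_mul, abs_of_nonneg (by positivity : 0 ≤ t0 ^ 2),
        abs_of_pos (by linarith : 0 < h1 + h2)]
      have h5 : t0 ^ 2 ≤ l2 ^ 2 := pow_le_pow_left₀ (by linarith [ht0l.1]) ht0l.2 2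
      have h6 : 0 ≤ h1 + h2 := by linarith
      exact mul_le_mul h5 (mul_le_mul_of_nonneg_right (by linarith) (abs_nonneg _))
        (by positivity) (by positivity)
    have e2 : |‖z1‖ ^ 2 - ‖z2‖ ^ 2| = |‖z1‖ - ‖z2‖| * (‖z1‖ + ‖z2‖) := by
      rw [show ‖z1‖ ^ 2 - ‖z2‖ ^ 2 = (‖z1‖ - ‖z2‖) * (‖z1‖ + ‖z2‖) by ring, abs_mul,
        abs_of_pos (by linarith : 0 < ‖z1‖ + ‖z2‖)]
    have e3 : |‖z1‖ - ‖z2‖| * (2 * c0) ≤ |‖z1‖ - ‖z2‖| * (‖z1‖ + ‖z2‖) := by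
      gcongr; linarith
    nlinarith
  have hradm : ∀ τ : ℝ, 0 < τ → δ ≤ τ → |C| ≤ τ →
      Real.exp (-M1 ^ 2) ≤ Real.exp (-((‖z1‖ - ‖z2‖) ^ 2 / τ ^ 2)) := by
    intro τ hτ hδτ hCτ
    apply Real.exp_le_exp.2
    rw [neg_le_neg_iff, div_le_iff₀ (by positivity), ← mul_pow, ← sq_abs (‖z1‖ - ‖z2‖)]
    apply pow_le_pow_left₀ (abs_nonneg _)
    rw [hM1, div_mul_eq_mul_div, le_div_iff₀ (by positivity)]
    refine hrad.trans ?_
    have : 2 * R * l2 ^ 2 * |C| ≤ 2 * R * l2 ^ 2 * τ := by gcongr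
    linarith
  rcases le_or_gt |C| δ with hc1 | hc1
  · -- smallest scale
    refine hv1.trans (ENNReal.ofReal_le_ofReal ?_)
    have hk : c * δ⁻¹ * (Real.exp (-M1 ^ 2) * Real.exp (-1)) ≤ ker κ J z1 z2 C := by
      have e1 : ker κ J z1 z2 C ≥ (δ ^ n)⁻¹ * W δ z1 z2 * Real.exp (-(C ^ 2 / δ ^ 2)) := by
        unfold ker
        have := Finset.sum_nonneg (s := Finset.range (J + 1)) fun j _ => trm_nonneg hκ j z1 z2 C
        rw [← hδ]
        linarith
      refine le_trans ?_ e1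
      have e2 := hW δ z1 z2 hδp ((tau_le hκ _).trans hκc) hz1 hz1' hz2 hz2'
      have e3 : Real.exp (-1) ≤ Real.exp (-(C ^ 2 / δ ^ 2)) := by
        apply Real.exp_le_exp.2
        rw [neg_le_neg_iff, div_le_one (by positivity), ← sq_abs]
        exact pow_le_pow_left₀ (abs_nonneg _) hc1 2
      calc c * δ⁻¹ * (Real.exp (-M1 ^ 2) * Real.exp (-1))
          = (c * δ⁻¹ * Real.exp (-M1 ^ 2)) * Real.exp (-1) := by ring
        _ ≤ (c * δ⁻¹ * Real.exp (-((‖z1‖ - ‖z2‖) ^ 2 / δ ^ 2))) * Real.exp (-(C ^ 2 / δ ^ 2)) := by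
            have := hradm δ hδp le_rfl hc1
            gcongr
        _ ≤ _ := by gcongr
    have h7 : l2 - l1 = δ * ((l2 - l1) * X / c * (c * δ⁻¹ * (Real.exp (-M1 ^ 2) * Real.exp (-1)))) := by
      have : δ * ((l2 - l1) * X / c * (c * δ⁻¹ * (Real.exp (-M1 ^ 2) * Real.exp (-1)))) =
        (l2 - l1) * (X * (Real.exp (-M1 ^ 2) * Real.exp (-1))) := by field_simp
      rw [this, hXi, mul_one]
    calc l2 - l1 = δ * ((l2 - l1) * X / c * (c * δ⁻¹ * (Real.exp (-M1 ^ 2) * Real.exp (-1)))) := h7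
      _ ≤ δ * (M * ker κ J z1 z2 C) := by gcongr
      _ ≤ δ * (M * (1 + ker κ J z1 z2 C)) := by gcongr; linarith
  · have hC0 : C ≠ 0 := by
      intro h0
      rw [h0, abs_zero] at hc1
      linarith
    have hCp : 0 < |C| := abs_pos.2 hC0
    refine (hv2 hC0).trans (ENNReal.ofReal_le_ofReal ?_)
    rcases le_or_gt |C| κ with hc2 | hc2
    · obtain ⟨j, hj, hj1, hj2⟩ := exists_scale J |C| hc1 hc2
      set τ : ℝ := tau κ j with hτ
      have hτp : 0 < τ := tau_pos hκ j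
      have hδτ : δ ≤ τ := by rw [hδ, hτ]; exact tau_anti hκ (by omega)
      have hk : c * τ⁻¹ * (Real.exp (-M1 ^ 2) * Real.exp (-1)) * Y ≤ ker κ J z1 z2 C := by
        have e1 : trm κ j z1 z2 C ≤ ker κ J z1 z2 C := by
          unfold ker
          have := Finset.single_le_sum (f := fun i => trm κ i z1 z2 C)
            (fun i _ => trm_nonneg hκ i z1 z2 C) (Finset.mem_range.2 (Nat.lt_succ_of_le hj))
          have := last_nonneg hκ (J + 1) z1 z2 C
          linarith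
        refine le_trans ?_ e1
        unfold trm
        rw [← hτ]
        have e2 := hW τ z1 z2 hτp ((tau_le hκ _).trans hκc) hz1 hz1' hz2 hz2'
        have e3 : Real.exp (-1) * Y ≤
            Real.exp (-(C ^ 2 / τ ^ 2)) - Real.exp (-(C ^ 2 / tau κ (j + 1) ^ 2)) := by
          set x : ℝ := C ^ 2 / τ ^ 2 with hx
          have hx4 : C ^ 2 / tau κ (j + 1) ^ 2 = x + 3 * x := by
            rw [tau_succ, ← hτ, hx]; field_simp; ring
          rw [hx4, neg_add, Real.exp_add]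
          have hx1 : x ≤ 1 := by
            rw [hx, div_le_one (by positivity), ← sq_abs]
            exact pow_le_pow_left₀ (abs_nonneg _) hj2 2
          have hx2 : 1 / 4 ≤ x := by
            rw [hx, le_div_iff₀ (by positivity), ← sq_abs C]
            rw [tau_succ, ← hτ] at hj1
            nlinarith
          have h8 : Real.exp (-1) ≤ Real.exp (-x) := Real.exp_le_exp.2 (by linarith)
          have h9 : Real.exp (-(3 * x)) ≤ Real.exp (-(3 / 4)) := Real.exp_le_exp.2 (by linarith)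
          have h10 : Y ≤ 1 - Real.exp (-(3 * x)) := by rw [hY]; linarith
          calc Real.exp (-1) * Y ≤ Real.exp (-x) * (1 - Real.exp (-(3 * x))) := by gcongr
            _ = _ := by ring
        calc c * τ⁻¹ * (Real.exp (-M1 ^ 2) * Real.exp (-1)) * Y
            = (c * τ⁻¹ * Real.exp (-M1 ^ 2)) * (Real.exp (-1) * Y) := by ring
          _ ≤ (c * τ⁻¹ * Real.exp (-((‖z1‖ - ‖z2‖) ^ 2 / τ ^ 2))) *
              (Real.exp (-(C ^ 2 / τ ^ 2)) - Real.exp (-(C ^ 2 / tau κ (j + 1) ^ 2))) := by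
              have := hradm τ hτp hδτ hj2
              gcongr
          _ ≤ _ := by
              have : 0 ≤ Real.exp (-(C ^ 2 / τ ^ 2)) - Real.exp (-(C ^ 2 / tau κ (j + 1) ^ 2)) :=
                le_trans (by positivity) e3
              gcongr
      have h6 : δ / (l1 * c0 * |C|) ≤ 2 * δ / (l1 * c0 * τ) := by
        rw [tau_succ, ← hτ] at hj1
        rw [div_le_div_iff₀ (by positivity) (by positivity)]
        have : 0 < δ * (l1 * c0) := by positivity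
        nlinarith
      have h7 : 2 * δ / (l1 * c0 * τ) = δ * (2 * X / (l1 * c0 * c * Y) *
          (c * τ⁻¹ * (Real.exp (-M1 ^ 2) * Real.exp (-1)) * Y)) := by
        have : δ * (2 * X / (l1 * c0 * c * Y) *
          (c * τ⁻¹ * (Real.exp (-M1 ^ 2) * Real.exp (-1)) * Y)) =
          2 * δ / (l1 * c0 * τ) * (X * (Real.exp (-M1 ^ 2) * Real.exp (-1))) := by field_simp
        rw [this, hXi, mul_one]
      calc δ / (l1 * c0 * |C|) ≤ 2 * δ / (l1 * c0 * τ) := h6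
        _ = δ * (2 * X / (l1 * c0 * c * Y) *
          (c * τ⁻¹ * (Real.exp (-M1 ^ 2) * Real.exp (-1)) * Y)) := h7
        _ ≤ δ * (M * ker κ J z1 z2 C) := by gcongr
        _ ≤ δ * (M * (1 + ker κ J z1 z2 C)) := by gcongr; linarith
    · calc δ / (l1 * c0 * |C|) ≤ δ / (l1 * c0 * κ) := by gcongr
        _ = δ * (1 / (l1 * c0 * κ) * 1) := by ring
        _ ≤ δ * (M * (1 + ker κ J z1 z2 C)) := by
            gcongr
            linarith

end Pool.Agent.Y270.FD
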