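import Mathlib
import Pool.Agent.Y270.FD.Geo2

set_option autoImplicit false

/-! Two elementary dyadic estimates. -/

namespace Pool.Agent.Y270.FD

open MeasureTheory Set Metric Filter Topology
open scoped ENNReal RealInnerProductSpace
open Pool.Agent.H789R2.FR

theorem pi_ineq (κ β : ℝ) (hκ : 0 < κ) (hβ : 0 ≤ β) :
    ∃ C : ℝ, 0 < C ∧ ∀ (j : ℕ) (s : ℝ), 0 ≤ s →
      (Real.exp (-(tau κ j ^ 2 * s ^ 2 / 4)) - Real.exp (-(tau κ j ^ 2 * s ^ 2))) *
        (1 + s) ^ (-β) ≤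
        C * ∑ i ∈ Finset.range (j + 1), tau κ i ^ (β - 2) * tau κ j ^ 2 *
          Real.exp (-(tau κ i ^ 2 * s ^ 2 / 4)) := by
  have he : Real.exp 1 * Real.exp (-1) = 1 := by rw [← Real.exp_add]; norm_num
  have he1 : (1 : ℝ) ≤ Real.exp 1 := Real.one_le_exp (by norm_num)
  have hκβ : 0 < κ ^ (-β) := by positivity
  refine ⟨Real.exp 1 * (4 + κ ^ (-β)), by positivity, ?_⟩
  set C : ℝ := Real.exp 1 * (4 + κ ^ (-β)) with hC
  have hCp : 0 < C := by positivity
  intro j s hs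
  set τ : ℝ := tau κ j with hτ
  have hτp : 0 < τ := tau_pos hκ j
  set L : ℝ := Real.exp (-(τ ^ 2 * s ^ 2 / 4)) - Real.exp (-(τ ^ 2 * s ^ 2)) with hL
  have hL0 : 0 ≤ L := by
    rw [hL, sub_nonneg]
    apply Real.exp_le_exp.2
    have : 0 ≤ τ ^ 2 * s ^ 2 := by positivity
    linarith
  have hL1 : L ≤ Real.exp (-(τ ^ 2 * s ^ 2 / 4)) := by
    rw [hL]; linarith [Real.exp_pos (-(τ ^ 2 * s ^ 2))]
  have hL2 : L ≤ τ ^ 2 * s ^ 2 := by
    have h1 : L ≤ 1 - Real.exp (-(τ ^ 2 * s ^ 2)) := by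
      rw [hL]
      have : Real.exp (-(τ ^ 2 * s ^ 2 / 4)) ≤ 1 := Real.exp_le_one_iff.2 (by
        have : 0 ≤ τ ^ 2 * s ^ 2 := by positivity
        linarith)
      linarith
    have h2 := Real.add_one_le_exp (-(τ ^ 2 * s ^ 2))
    linarith
  have hterm : ∀ i ∈ Finset.range (j + 1), tau κ i ^ (β - 2) * τ ^ 2 *
      Real.exp (-(tau κ i ^ 2 * s ^ 2 / 4)) ≤ ∑ i ∈ Finset.range (j + 1),
        tau κ i ^ (β - 2) * τ ^ 2 * Real.exp (-(tau κ i ^ 2 * s ^ 2 / 4)) := by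
    intro i hi
    refine Finset.single_le_sum (f := fun i => tau κ i ^ (β - 2) * τ ^ 2 *
      Real.exp (-(tau κ i ^ 2 * s ^ 2 / 4))) (fun k _ => ?_) hi
    have := tau_pos hκ k
    positivity
  have hs1 : (1 + s) ^ (-β) ≤ 1 := by
    apply Real.rpow_le_one_of_one_le_of_nonpos (by linarith) (by linarith)
  rcases le_or_gt (κ * s) 1 with hA | hA
  · -- low frequencies
    have h1 := hterm 0 (Finset.mem_range.2 (by omega))
    rw [tau_zero] at h1
    have h2 : κ⁻¹ ^ 2 * τ ^ 2 ≤ C * (κ ^ (β - 2) * τ ^ 2 * Real.exp (-(κ ^ 2 * s ^ 2 / 4))) := by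
      have h3 : Real.exp (-1) ≤ Real.exp (-(κ ^ 2 * s ^ 2 / 4)) := by
        apply Real.exp_le_exp.2
        have : (κ * s) ^ 2 ≤ 1 := pow_le_one₀ (by positivity) hA
        rw [mul_pow] at this
        linarith
      have h4 : κ ^ (-β) * κ ^ (β - 2) = κ⁻¹ ^ 2 := by
        rw [← Real.rpow_add hκ, show -β + (β - 2) = -(2 : ℝ) by ring, Real.rpow_neg hκ.le,
          inv_pow, ← Real.rpow_natCast κ 2]
        norm_num
      calc κ⁻¹ ^ 2 * τ ^ 2 = (Real.exp 1 * κ ^ (-β)) * (κ ^ (β - 2) * τ ^ 2 * Real.exp (-1)) := by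
            rw [← h4]
            calc κ ^ (-β) * κ ^ (β - 2) * τ ^ 2
                = κ ^ (-β) * κ ^ (β - 2) * τ ^ 2 * (Real.exp 1 * Real.exp (-1)) := by
                  rw [he, mul_one]
              _ = _ := by ring
        _ ≤ C * (κ ^ (β - 2) * τ ^ 2 * Real.exp (-(κ ^ 2 * s ^ 2 / 4))) := by
            gcongr
            rw [hC]
            gcongr
            linarith
    calc L * (1 + s) ^ (-β) ≤ (τ ^ 2 * s ^ 2) * 1 := by gcongr
      _ = s ^ 2 * τ ^ 2 := by ring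
      _ ≤ κ⁻¹ ^ 2 * τ ^ 2 := by
          gcongr
          rw [← one_div, le_div_iff₀ hκ]
          linarith
      _ ≤ _ := h2.trans (by gcongr)
  have hsp : 0 < s := by
    by_contra h0
    have : s = 0 := le_antisymm (not_lt.1 h0) hs
    rw [this, mul_zero] at hA
    linarith
  have hss : (1 + s) ^ (-β) ≤ s ^ (-β) :=
    Real.rpow_le_rpow_of_nonpos hsp (by linarith) (by linarith)
  have hsb : ∀ x : ℝ, 0 < x → 1 ≤ x * s → s ^ (-β) ≤ x ^ β := by
    intro x hx hxs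
    rw [Real.rpow_neg hsp.le, inv_le_comm₀ (by positivity) (by positivity), ← Real.inv_rpow hx.le]
    apply Real.rpow_le_rpow (by positivity) _ hβ
    rw [← one_div, div_le_iff₀ hx]
    linarith
  rcases le_or_gt 1 (τ * s) with hB | hB
  · have h1 := hterm j (Finset.mem_range.2 (by omega))
    have h3 : τ ^ (β - 2) * τ ^ 2 = τ ^ β := by
      rw [← Real.rpow_natCast τ 2, ← Real.rpow_add hτp]
      congr 1
      push_cast
      ring
    have h4 : (1 : ℝ) ≤ C := by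
      rw [hC]; nlinarith
    calc L * (1 + s) ^ (-β) ≤ Real.exp (-(τ ^ 2 * s ^ 2 / 4)) * τ ^ β := by
          have := hss.trans (hsb τ hτp hB)
          gcongr
      _ = 1 * (τ ^ (β - 2) * τ ^ 2 * Real.exp (-(τ ^ 2 * s ^ 2 / 4))) := by rw [h3]; ring
      _ ≤ C * (τ ^ (β - 2) * τ ^ 2 * Real.exp (-(τ ^ 2 * s ^ 2 / 4))) := by gcongr
      _ ≤ _ := by gcongr
  · rcases j with _ | J
    · rw [hτ, tau_zero] at hB
      linarith
    have hx1 : tau κ (J + 1) < 1 / s := by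
      rw [lt_div_iff₀ hsp]; exact hB
    have hx2 : 1 / s ≤ κ := by
      rw [div_le_iff₀ hsp]; exact hA.le
    obtain ⟨i, hi, hi1, hi2⟩ := exists_scale J (1 / s) hx1 hx2
    have h1 := hterm i (Finset.mem_range.2 (by omega))
    set r : ℝ := tau κ i with hr
    have hrp : 0 < r := tau_pos hκ i
    rw [tau_succ, ← hr, lt_div_iff₀ hsp] at hi1
    rw [div_le_iff₀ hsp] at hi2
    have h3 : Real.exp (-1) ≤ Real.exp (-(r ^ 2 * s ^ 2 / 4)) := by
      apply Real.exp_le_exp.2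
      have h4 : r * s ≤ 2 := by linarith
      have : (r * s) ^ 2 ≤ 2 ^ 2 := pow_le_pow_left₀ (by positivity) h4 2
      rw [mul_pow] at this
      linarith
    have h5 : r ^ β = r ^ (β - 2) * r ^ 2 := by
      rw [← Real.rpow_natCast r 2, ← Real.rpow_add hrp]
      congr 1
      push_cast
      ring
    have h6 : s ^ 2 * r ^ 2 ≤ 4 := by
      have h4 : r * s ≤ 2 := by linarith
      have : (r * s) ^ 2 ≤ 2 ^ 2 := pow_le_pow_left₀ (by positivity) h4 2
      rw [mul_pow] at this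
      linarith
    calc L * (1 + s) ^ (-β) ≤ (τ ^ 2 * s ^ 2) * r ^ β := by
          have := hss.trans (hsb r hrp hi2)
          gcongr
      _ = (s ^ 2 * r ^ 2) * (r ^ (β - 2) * τ ^ 2) := by rw [h5]; ring
      _ ≤ 4 * (r ^ (β - 2) * τ ^ 2) := by gcongr
      _ = (Real.exp 1 * 4) * (r ^ (β - 2) * τ ^ 2 * Real.exp (-1)) := by
          calc 4 * (r ^ (β - 2) * τ ^ 2) = 4 * (r ^ (β - 2) * τ ^ 2) * (Real.exp 1 * Real.exp (-1)) := by
                rw [he, mul_one]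
            _ = _ := by ring
      _ ≤ C * (r ^ (β - 2) * τ ^ 2 * Real.exp (-(r ^ 2 * s ^ 2 / 4))) := by
          gcongr
          rw [hC]
          gcongr
          linarith
      _ ≤ _ := by gcongr

/-- geometric sums of negative powers of the scales -/
theorem tau_sum (κ e : ℝ) (hκ : 0 < κ) (he : e ≤ 1) (j : ℕ) :
    ∑ i ∈ Finset.range (j + 1), tau κ i ^ (e - 2) ≤ 2 * tau κ j ^ (e - 2) := by
  induction j with
  | zero =>
    rw [zero_add, Finset.sum_range_one]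
    have : 0 < tau κ 0 ^ (e - 2) := Real.rpow_pos_of_pos (tau_pos hκ 0) _
    linarith
  | succ j ih =>
    rw [Finset.sum_range_succ]
    have h1 : tau κ j = 2 * tau κ (j + 1) := by rw [tau_succ]; ring
    have h2 := tau_pos hκ (j + 1)
    have h3 : tau κ j ^ (e - 2) ≤ 1 / 2 * tau κ (j + 1) ^ (e - 2) := by
      rw [h1, Real.mul_rpow (by norm_num) h2.le]
      gcongr
      calc (2 : ℝ) ^ (e - 2) ≤ 2 ^ (-1 : ℝ) :=
            Real.rpow_le_rpow_of_exponent_le (by norm_num) (by linarith)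
        _ = 1 / 2 := by rw [Real.rpow_neg_one]; norm_num
    have h4 : 0 < tau κ (j + 1) ^ (e - 2) := Real.rpow_pos_of_pos h2 _
    linarith

end Pool.Agent.Y270.FD
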