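import Mathlib
import Pool.Agent.Y270.FD.Ker

set_option autoImplicit false

/-! Energy decay from a small-ball bound. -/

namespace Pool.Agent.Y270.FD

open MeasureTheory Set Metric Filter Topology
open scoped ENNReal RealInnerProductSpace

lemma exists_scale' (x : ℝ) (h1 : 0 < x) (h2 : x ≤ 1) :
    ∃ j, tau 1 (j + 1) < x ∧ x ≤ tau 1 j := by
  obtain ⟨J, hJ⟩ := exists_pow_lt_of_lt_one h1 (by norm_num : (1:ℝ) / 2 < 1)
  have h3 : tau 1 (J + 1) < x := by
    refine lt_of_le_of_lt (tau_anti one_pos (Nat.le_succ J)) ?_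
    unfold tau
    rw [one_mul]
    exact hJ
  obtain ⟨j, _, hj1, hj2⟩ := exists_scale J x h3 h2
  exact ⟨j, hj1, hj2⟩

theorem en_decay {Y : Type*} [MeasurableSpace Y] (ν : Measure Y) [IsProbabilityMeasure ν]
    (d : Y → ℝ) (hd : Measurable d) (hd0 : ∀ y, 0 ≤ d y) (C s1 β : ℝ) (hC : 0 < C) (hβ : 0 ≤ β)
    (hs : β < s1) (h : ∀ k : ℕ, ν {y | d y ≤ tau 1 k} ≤ ENNReal.ofReal (C * tau 1 k ^ s1)) :
    ∃ C' : ℝ, 0 < C' ∧ ∀ s : ℝ, 0 ≤ s → ∫ y, (1 + s * d y) ^ (-β) ∂ν ≤ C' * (1 + s) ^ (-β) := by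
  set ρ : ℝ := (1 / 2) ^ (s1 - β) with hρ
  have hρ0 : 0 < ρ := by positivity
  have hρ1 : ρ < 1 := Real.rpow_lt_one (by norm_num) (by norm_num) (by linarith)
  have hsum : Summable fun k : ℕ => C * 2 ^ β * ρ ^ k :=
    (summable_geometric_of_lt_one hρ0.le hρ1).mul_left _
  have hS : 0 ≤ ∑' k : ℕ, C * 2 ^ β * ρ ^ k := tsum_nonneg fun k => by positivity
  have hterm : ∀ k : ℕ, tau 1 (k + 1) ^ (-β) * (C * tau 1 k ^ s1) = C * 2 ^ β * ρ ^ k := by
    intro k
    have h0 := tau_pos one_pos k
    rw [tau_succ, Real.div_rpow h0.le (by norm_num), Real.rpow_neg (by norm_num : (0:ℝ) ≤ 2)]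
    have e1 : tau 1 k ^ (-β) * tau 1 k ^ s1 = ρ ^ k := by
      rw [← Real.rpow_add h0, hρ, tau, one_mul, ← Real.rpow_natCast, ← Real.rpow_natCast,
        ← Real.rpow_mul (by norm_num), ← Real.rpow_mul (by norm_num)]
      congr 1; ring
    rw [← e1]
    field_simp
  refine ⟨1 + ∑' k : ℕ, C * 2 ^ β * ρ ^ k, by positivity, ?_⟩
  intro s hs0
  have hm : ∀ k, MeasurableSet {y | d y ≤ tau 1 k} := fun k => measurableSet_le hd measurable_const
  have hpos : ∀ y, 0 ≤ (1 + s * d y) ^ (-β) := fun y => by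
    have := hd0 y
    positivity
  have hpt : ∀ y, ENNReal.ofReal ((1 + s * d y) ^ (-β)) ≤ ENNReal.ofReal ((1 + s) ^ (-β)) *
      (1 + ∑' k : ℕ, ENNReal.ofReal (tau 1 (k + 1) ^ (-β)) *
        ({y | d y ≤ tau 1 k}).indicator (fun _ => (1 : ℝ≥0∞)) y) := by
    intro y
    have hdy := hd0 y
    rcases lt_or_ge 1 (d y) with h1 | h1
    · calc ENNReal.ofReal ((1 + s * d y) ^ (-β)) ≤ ENNReal.ofReal ((1 + s) ^ (-β)) := by
            apply ENNReal.ofReal_le_ofReal
            apply Real.rpow_le_rpow_of_nonpos (by positivity) (by nlinarith) (by linarith)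
        _ = ENNReal.ofReal ((1 + s) ^ (-β)) * 1 := (mul_one _).symm
        _ ≤ _ := by gcongr; exact le_self_add
    · set m : ℝ := max (d y) (1 / (1 + s)) with hmdef
      have hm0 : 0 < m := lt_of_lt_of_le (by positivity) (le_max_right _ _)
      have hm1 : m ≤ 1 := max_le h1 (by rw [div_le_one (by positivity)]; linarith)
      obtain ⟨k, hk1, hk2⟩ := exists_scale' m hm0 hm1
      have hk0 := tau_pos one_pos (k + 1)
      have hmem : y ∈ {y | d y ≤ tau 1 k} := (le_max_left _ _).trans hk2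
      have hlow : (1 + s) * tau 1 (k + 1) ≤ 1 + s * d y := by
        refine (mul_le_mul_of_nonneg_left hk1.le (by positivity)).trans ?_
        rcases le_total (d y) (1 / (1 + s)) with h2 | h2
        · have : m = 1 / (1 + s) := max_eq_right h2
          rw [this, mul_one_div_cancel (by positivity)]
          nlinarith
        · have : m = d y := max_eq_left h2
          rw [this]
          nlinarith
      calc ENNReal.ofReal ((1 + s * d y) ^ (-β))
          ≤ ENNReal.ofReal ((1 + s) ^ (-β)) * ENNReal.ofReal (tau 1 (k + 1) ^ (-β)) := by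
            rw [← ENNReal.ofReal_mul (by positivity)]
            apply ENNReal.ofReal_le_ofReal
            rw [← Real.mul_rpow (by positivity) hk0.le]
            exact Real.rpow_le_rpow_of_nonpos (by positivity) hlow (by linarith)
        _ = ENNReal.ofReal ((1 + s) ^ (-β)) * (ENNReal.ofReal (tau 1 (k + 1) ^ (-β)) *
            ({y | d y ≤ tau 1 k}).indicator (fun _ => (1 : ℝ≥0∞)) y) := by
            rw [indicator_of_mem hmem, mul_one]
        _ ≤ _ := by
            gcongr
            refine le_trans ?_ le_add_self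
            exact ENNReal.le_tsum (f := fun k : ℕ => ENNReal.ofReal (tau 1 (k + 1) ^ (-β)) *
              ({y | d y ≤ tau 1 k}).indicator (fun _ => (1 : ℝ≥0∞)) y) k
  have hmeas : Measurable fun y => (1 + s * d y) ^ (-β) := by fun_prop
  rw [integral_eq_lintegral_of_nonneg_ae (Eventually.of_forall hpos) hmeas.aestronglyMeasurable]
  apply ENNReal.toReal_le_of_le_ofReal (by positivity)
  calc ∫⁻ y, ENNReal.ofReal ((1 + s * d y) ^ (-β)) ∂ν
      ≤ ∫⁻ y, ENNReal.ofReal ((1 + s) ^ (-β)) *
        (1 + ∑' k : ℕ, ENNReal.ofReal (tau 1 (k + 1) ^ (-β)) *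
        ({y | d y ≤ tau 1 k}).indicator (fun _ => (1 : ℝ≥0∞)) y) ∂ν := lintegral_mono hpt
    _ = ENNReal.ofReal ((1 + s) ^ (-β)) *
        (1 + ∑' k : ℕ, ENNReal.ofReal (tau 1 (k + 1) ^ (-β)) * ν {y | d y ≤ tau 1 k}) := by
        rw [lintegral_const_mul' _ _ ENNReal.ofReal_ne_top, lintegral_add_left measurable_const]
        congr 2
        · simp
        · rw [lintegral_tsum]
          · congr 1
            funext k
            rw [lintegral_const_mul' _ _ ENNReal.ofReal_ne_top, lintegral_indicator (hm k),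
              setLIntegral_const, one_mul]
          · intro k
            exact ((measurable_const.indicator (hm k)).const_mul _).aemeasurable
    _ ≤ ENNReal.ofReal ((1 + s) ^ (-β)) *
        (1 + ∑' k : ℕ, ENNReal.ofReal (C * 2 ^ β * ρ ^ k)) := by
        gcongr with k
        rw [← hterm k, ENNReal.ofReal_mul (by have := tau_pos one_pos (k + 1); positivity)]
        gcongr
        exact h k
    _ = _ := by
        rw [← ENNReal.ofReal_tsum_of_nonneg (fun k => by positivity) hsum, ← ENNReal.ofReal_one,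
          ← ENNReal.ofReal_add zero_le_one hS, ← ENNReal.ofReal_mul (by positivity)]
        congr 1
        ring

end Pool.Agent.Y270.FD
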