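import Mathlib
import Pool.Agent.H744R2.Falc.GaussEnergy
import Pool.Agent.H789R2.FR.Defs

set_option autoImplicit false

/-! Anisotropic Gaussian energies as frequency integrals. -/

namespace Pool.Agent.Y270.FD

open MeasureTheory Set Metric Filter Topology Complex
open scoped ENNReal RealInnerProductSpace
open Pool.Agent.H789R2.FR (E)

/-- the Gaussian weight on the frequency side -/
noncomputable def gw {n : ℕ} (a b : ℝ) (q : E n × ℝ) : ℝ :=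
  Real.exp (-(a ^ 2 * ‖q.1‖ ^ 2 / 4)) * Real.exp (-(b ^ 2 * q.2 ^ 2 / 4))

/-- the constant -/
noncomputable def Kc (n : ℕ) : ℝ := (4 * Real.pi) ^ ((n : ℝ) / 2) * (2 * Real.sqrt Real.pi)

lemma Kc_pos (n : ℕ) : 0 < Kc n := by
  unfold Kc
  have := Real.pi_pos
  have := Real.sqrt_pos.2 Real.pi_pos
  positivity

lemma gw_pos {n : ℕ} (a b : ℝ) (q : E n × ℝ) : 0 < gw a b q := by
  unfold gw
  positivity

lemma gw_cont {n : ℕ} (a b : ℝ) : Continuous (gw a b : E n × ℝ → ℝ) := by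
  unfold gw
  fun_prop

lemma gauss_n {n : ℕ} (a : ℝ) (ha : 0 < a) (v : E n) :
    ∫ x : E n, ((Real.exp (-(a ^ 2 * ‖x‖ ^ 2 / 4)) : ℝ) : ℂ) * cexp (((⟪x, v⟫ : ℝ) : ℂ) * I) =
      (((4 * Real.pi) ^ ((n : ℝ) / 2) / a ^ n * Real.exp (-(‖v‖ ^ 2 / a ^ 2)) : ℝ) : ℂ) := by
  have hb : 0 < ((a ^ 2 / 4 : ℝ) : ℂ).re := by
    rw [Complex.ofReal_re]; positivity
  have h := GaussianFourier.integral_cexp_neg_mul_sq_norm_add (V := E n) hb I v
  have e1 : (fun x : E n => ((Real.exp (-(a ^ 2 * ‖x‖ ^ 2 / 4)) : ℝ) : ℂ) *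
      cexp (((⟪x, v⟫ : ℝ) : ℂ) * I)) =
      fun x : E n => cexp (-((a ^ 2 / 4 : ℝ) : ℂ) * (‖x‖ : ℂ) ^ 2 + I * ((⟪v, x⟫ : ℝ) : ℂ)) := by
    funext x
    rw [Complex.exp_add, real_inner_comm]
    push_cast
    congr 1
    · congr 1; ring
    · congr 1; ring
  rw [e1, h]
  have hpi := Real.pi_pos
  have e2 : ((Real.pi : ℂ) / ((a ^ 2 / 4 : ℝ) : ℂ)) ^ ((Module.finrank ℝ (E n) : ℂ) / 2) =
      (((4 * Real.pi) ^ ((n : ℝ) / 2) / a ^ n : ℝ) : ℂ) := by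
    rw [finrank_euclideanSpace_fin,
      show ((Real.pi : ℂ) / ((a ^ 2 / 4 : ℝ) : ℂ)) = ((Real.pi / (a ^ 2 / 4) : ℝ) : ℂ) by push_cast; ring,
      show ((n : ℂ) / 2) = (((n : ℝ) / 2 : ℝ) : ℂ) by push_cast; ring,
      ← Complex.ofReal_cpow (by positivity)]
    congr 1
    rw [show Real.pi / (a ^ 2 / 4) = (4 * Real.pi) / a ^ 2 by field_simp,
      Real.div_rpow (by positivity) (by positivity)]
    congr 1
    rw [← Real.rpow_natCast a 2, ← Real.rpow_mul ha.le, ← Real.rpow_natCast a n]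
    congr 1
    push_cast
    ring
  rw [e2]
  push_cast
  congr 1
  congr 1
  rw [Complex.I_sq]
  have : (a : ℂ) ≠ 0 := by exact_mod_cast ha.ne'
  field_simp

lemma gauss_pt {n : ℕ} (a b : ℝ) (ha : 0 < a) (hb : 0 < b) (v : E n) (g : ℝ) :
    ∫ q : E n × ℝ, ((gw a b q : ℝ) : ℂ) * cexp (((⟪q.1, v⟫ + q.2 * g : ℝ) : ℂ) * I) =
      ((Kc n / (a ^ n * b) * (Real.exp (-(‖v‖ ^ 2 / a ^ 2)) * Real.exp (-(g ^ 2 / b ^ 2))) : ℝ) : ℂ) := by
  have h1 : (fun q : E n × ℝ => ((gw a b q : ℝ) : ℂ) * cexp (((⟪q.1, v⟫ + q.2 * g : ℝ) : ℂ) * I)) =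
      fun q : E n × ℝ => (((Real.exp (-(a ^ 2 * ‖q.1‖ ^ 2 / 4)) : ℝ) : ℂ) *
        cexp (((⟪q.1, v⟫ : ℝ) : ℂ) * I)) * (cexp (((q.2 * g : ℝ) : ℂ) * I) *
        ((Real.exp (-((b / 2) ^ 2 * q.2 ^ 2)) : ℝ) : ℂ)) := by
    funext q
    unfold gw
    rw [show (((⟪q.1, v⟫ + q.2 * g : ℝ) : ℂ) * I) = (((⟪q.1, v⟫ : ℝ) : ℂ) * I) + (((q.2 * g : ℝ) : ℂ) * I) by
      push_cast; ring, Complex.exp_add, show (b / 2) ^ 2 * q.2 ^ 2 = b ^ 2 * q.2 ^ 2 / 4 by ring]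
    rw [Complex.ofReal_mul]
    ring
  rw [h1, Measure.volume_eq_prod, integral_prod_mul (f := fun x : E n => (((Real.exp (-(a ^ 2 * ‖x‖ ^ 2 / 4)) : ℝ) : ℂ) *
        cexp (((⟪x, v⟫ : ℝ) : ℂ) * I))) (g := fun t : ℝ => (cexp (((t * g : ℝ) : ℂ) * I) *
        ((Real.exp (-((b / 2) ^ 2 * t ^ 2)) : ℝ) : ℂ))), gauss_n a ha v,
    Pool.Agent.H744R2.Falc.gauss_ft (b / 2) g (by positivity), ← Complex.ofReal_mul]
  congr 1
  have e1 : Real.sqrt Real.pi / (b / 2) * Real.exp (-(g ^ 2 / (4 * (b / 2) ^ 2))) =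
      (2 * Real.sqrt Real.pi) / b * Real.exp (-(g ^ 2 / b ^ 2)) := by
    rw [show 4 * (b / 2) ^ 2 = b ^ 2 by ring]
    congr 1
    field_simp
  rw [e1]
  unfold Kc
  field_simp

lemma gw_integrable {n : ℕ} (a b : ℝ) (ha : 0 < a) (hb : 0 < b) :
    Integrable (gw a b : E n × ℝ → ℝ) := by
  have h1 : Integrable (fun x : E n => Real.exp (-(a ^ 2 * ‖x‖ ^ 2 / 4))) := by
    by_contra hcon
    have := GaussianFourier.integral_rexp_neg_mul_sq_norm (V := E n) (b := a ^ 2 / 4) (by positivity)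
    have e : (fun x : E n => Real.exp (-(a ^ 2 / 4) * ‖x‖ ^ 2)) =
        fun x : E n => Real.exp (-(a ^ 2 * ‖x‖ ^ 2 / 4)) := by
      funext x; congr 1; ring
    rw [e, integral_undef hcon] at this
    have hpi := Real.pi_pos
    have h2 : 0 < (Real.pi / (a ^ 2 / 4)) ^ ((Module.finrank ℝ (E n) : ℝ) / 2) := by positivity
    linarith
  have h2 : Integrable (fun t : ℝ => Real.exp (-(b ^ 2 * t ^ 2 / 4))) := by
    have := integrable_exp_neg_mul_sq (b := b ^ 2 / 4) (by positivity)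
    refine this.congr (Eventually.of_forall fun t => ?_)
    simp only
    congr 1; ring
  exact h1.mul_prod h2

/-- the key identity -/
theorem key {n : ℕ} {Θ : Type*} [MeasurableSpace Θ] (m : Measure Θ) [IsFiniteMeasure m]
    (v : Θ → E n) (hv : Measurable v) (g : Θ → ℝ) (hg : Measurable g)
    (a b : ℝ) (ha : 0 < a) (hb : 0 < b) :
    ∫ q : E n × ℝ, ((gw a b q : ℝ) : ℂ) *
        (∫ θ, cexp (((⟪q.1, v θ⟫ + q.2 * g θ : ℝ) : ℂ) * I) ∂m) =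
      ((Kc n / (a ^ n * b) *
        ∫ θ, Real.exp (-(‖v θ‖ ^ 2 / a ^ 2)) * Real.exp (-(g θ ^ 2 / b ^ 2)) ∂m : ℝ) : ℂ) := by
  have hmeas : Measurable (fun x : (E n × ℝ) × Θ =>
      cexp (((⟪x.1.1, v x.2⟫ + x.1.2 * g x.2 : ℝ) : ℂ) * I)) := by
    fun_prop
  have hint : Integrable (Function.uncurry fun (q : E n × ℝ) (θ : Θ) =>
      ((gw a b q : ℝ) : ℂ) * cexp (((⟪q.1, v θ⟫ + q.2 * g θ : ℝ) : ℂ) * I))
      ((volume : Measure (E n × ℝ)).prod m) := by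
    have h1 : Integrable (fun x : (E n × ℝ) × Θ => gw a b x.1) ((volume : Measure (E n × ℝ)).prod m) :=
      (gw_integrable a b ha hb).comp_fst m
    refine h1.mono' ?_ ?_
    · unfold Function.uncurry
      refine Measurable.aestronglyMeasurable ?_
      exact (Complex.measurable_ofReal.comp ((gw_cont a b).measurable.comp measurable_fst)).mul hmeas
    · refine Eventually.of_forall fun x => ?_
      unfold Function.uncurry
      rw [norm_mul, Complex.norm_exp_ofReal_mul_I, mul_one, Complex.norm_real, Real.norm_eq_abs,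
        abs_of_pos (gw_pos _ _ _)]
  calc ∫ q : E n × ℝ, ((gw a b q : ℝ) : ℂ) *
        (∫ θ, cexp (((⟪q.1, v θ⟫ + q.2 * g θ : ℝ) : ℂ) * I) ∂m)
      = ∫ q : E n × ℝ, ∫ θ, ((gw a b q : ℝ) : ℂ) *
          cexp (((⟪q.1, v θ⟫ + q.2 * g θ : ℝ) : ℂ) * I) ∂m := by
        congr 1
        funext q
        rw [integral_const_mul]
    _ = ∫ θ, (∫ q : E n × ℝ, ((gw a b q : ℝ) : ℂ) *
          cexp (((⟪q.1, v θ⟫ + q.2 * g θ : ℝ) : ℂ) * I)) ∂m := integral_integral_swap hint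
    _ = ∫ θ, ((Kc n / (a ^ n * b) * (Real.exp (-(‖v θ‖ ^ 2 / a ^ 2)) *
          Real.exp (-(g θ ^ 2 / b ^ 2))) : ℝ) : ℂ) ∂m := by
        congr 1
        funext θ
        exact gauss_pt a b ha hb (v θ) (g θ)
    _ = _ := by
        rw [integral_complex_ofReal, integral_const_mul]

end Pool.Agent.Y270.FD
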