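import Mathlib
import Pool.Agent.Y270.FD.Key
import Pool.Agent.Y270.FD.En

set_option autoImplicit false

/-! Characteristic functions, spherical averages, and their decay. -/

namespace Pool.Agent.Y270.FD

open MeasureTheory Set Metric Filter Topology Complex
open scoped ENNReal RealInnerProductSpace
open Pool.Agent.H789R2.FR

variable {X : Type*} [MeasurableSpace X] {n : ℕ}

/-- characteristic function of `μ` in the variables `(p, q)` -/
noncomputable def Fc (μ : Measure X) (p : X → E n) (q : X → ℝ) (ξ : E n × ℝ) : ℂ :=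
  ∫ x, cexp (((⟪ξ.1, p x⟫ + ξ.2 * q x : ℝ) : ℂ) * I) ∂μ

lemma Fc_meas (μ : Measure X) [IsProbabilityMeasure μ] (p : X → E n) (hp : Measurable p)
    (q : X → ℝ) (hq : Measurable q) : Measurable (Fc μ p q) := by
  refine StronglyMeasurable.measurable ?_
  refine StronglyMeasurable.integral_prod_right (f := fun (ξ : E n × ℝ) (x : X) =>
    cexp (((⟪ξ.1, p x⟫ + ξ.2 * q x : ℝ) : ℂ) * I)) ?_
  refine Measurable.stronglyMeasurable ?_
  unfold Function.uncurry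
  fun_prop

lemma Fc_norm_le (μ : Measure X) [IsProbabilityMeasure μ] (p : X → E n)
    (q : X → ℝ) (ξ : E n × ℝ) : ‖Fc μ p q ξ‖ ≤ 1 := by
  have := norm_integral_le_of_norm_le_const (μ := μ) (C := 1)
    (f := fun x => cexp (((⟪ξ.1, p x⟫ + ξ.2 * q x : ℝ) : ℂ) * I))
    (ae_of_all _ fun ω => by rw [Complex.norm_exp_ofReal_mul_I])
  unfold Fc
  refine this.trans ?_
  simp

lemma Fc_prod (μ1 μ2 : Measure X) [IsProbabilityMeasure μ1] [IsProbabilityMeasure μ2]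
    (p : X → E n) (q : X → ℝ) (ξ : E n × ℝ) :
    ∫ ω, cexp (((⟪ξ.1, p ω.1 - p ω.2⟫ + ξ.2 * (q ω.1 - q ω.2) : ℝ) : ℂ) * I) ∂(μ1.prod μ2) =
      Fc μ1 p q ξ * (starRingEnd ℂ) (Fc μ2 p q ξ) := by
  unfold Fc
  rw [← integral_conj, ← integral_prod_mul]
  congr 1
  funext ω
  rw [← Complex.exp_conj, ← Complex.exp_add]
  congr 1
  rw [inner_sub_right]
  simp only [map_mul, Complex.conj_ofReal, Complex.conj_I]
  push_cast
  ring

lemma Fc_sq (μ : Measure X) [IsProbabilityMeasure μ] (p : X → E n) (q : X → ℝ) (ξ : E n × ℝ) :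
    ((‖Fc μ p q ξ‖ ^ 2 : ℝ) : ℂ) =
    ∫ ω, cexp (((⟪ξ.1, p ω.1 - p ω.2⟫ + ξ.2 * (q ω.1 - q ω.2) : ℝ) : ℂ) * I) ∂(μ.prod μ) := by
  rw [Fc_prod, Complex.mul_conj, Complex.normSq_eq_norm_sq]

/-- Gaussian energy in the variables `(p,q)` -/
noncomputable def Gen (μ : Measure X) (p : X → E n) (q : X → ℝ) (a b : ℝ) : ℝ :=
  ∫ r, Real.exp (-(‖p r.1 - p r.2‖ ^ 2 / a ^ 2)) * Real.exp (-((q r.1 - q r.2) ^ 2 / b ^ 2))
    ∂(μ.prod μ)

lemma energy (μ : Measure X) [IsProbabilityMeasure μ] (p : X → E n) (hp : Measurable p)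
    (q : X → ℝ) (hq : Measurable q) (a b : ℝ) (ha : 0 < a) (hb : 0 < b) :
    ∫ ξ, gw a b ξ * ‖Fc μ p q ξ‖ ^ 2 = Kc n / (a ^ n * b) * Gen μ p q a b := by
  have h := key (μ.prod μ) (fun r => p r.1 - p r.2) (by fun_prop) (fun r => q r.1 - q r.2)
    (by fun_prop) a b ha hb
  apply Complex.ofReal_injective
  unfold Gen
  rw [← h, ← integral_complex_ofReal]
  congr 1
  funext ξ
  rw [Complex.ofReal_mul, Fc_sq]

lemma sph_swap (ξ z : E n) (c : ℝ) :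
    ∫ w, cexp (((-(⟪ξ, ‖z‖ • w⟫ + c) : ℝ) : ℂ) * I) ∂(sg n) =
      ∫ w, cexp (((⟪(-‖ξ‖) • w, z⟫ + -c : ℝ) : ℂ) * I) ∂(sg n) := by
  have h1 : ∫ w, cexp (((-(⟪ξ, ‖z‖ • w⟫ + c) : ℝ) : ℂ) * I) ∂(sg n) =
      cexp (((-c : ℝ) : ℂ) * I) * T (fun _ : E n => (1 : ℂ)) (‖z‖ • ξ) := by
    unfold T
    rw [← integral_const_mul]
    congr 1
    funext w
    rw [mul_one, ← Complex.exp_add, inner_smul_left, inner_smul_right]
    congr 1
    simp only [conj_trivial]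
    push_cast
    ring
  have h2 : ∫ w, cexp (((⟪(-‖ξ‖) • w, z⟫ + -c : ℝ) : ℂ) * I) ∂(sg n) =
      cexp (((-c : ℝ) : ℂ) * I) * T (fun _ : E n => (1 : ℂ)) (‖ξ‖ • z) := by
    unfold T
    rw [← integral_const_mul]
    congr 1
    funext w
    rw [mul_one, ← Complex.exp_add, inner_smul_left, inner_smul_left, real_inner_comm]
    congr 1
    simp only [conj_trivial]
    push_cast
    ring
  rw [h1, h2, T_radial (‖z‖ • ξ) (‖ξ‖ • z)]
  rw [norm_smul, norm_smul, norm_norm, norm_norm, mul_comm]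

/-- mean of the characteristic function of radial type -/
noncomputable def Bc (P : Measure (X × X)) (p : X → E n) (q : X → ℝ) (ξ : E n × ℝ) : ℂ :=
  ∫ ω, (∫ w, cexp (((-(⟪ξ.1, ‖p ω.1 - p ω.2‖ • w⟫ + ξ.2 * (q ω.1 - q ω.2)) : ℝ) : ℂ) * I) ∂(sg n)) ∂P

lemma Bc_meas (P : Measure (X × X)) [IsProbabilityMeasure P] (p : X → E n) (hp : Measurable p)
    (q : X → ℝ) (hq : Measurable q) : Measurable (Bc P p q) := by
  have := sg_finite n
  refine StronglyMeasurable.measurable ?_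
  refine StronglyMeasurable.integral_prod_right (f := fun (ξ : E n × ℝ) (ω : X × X) =>
    ∫ w, cexp (((-(⟪ξ.1, ‖p ω.1 - p ω.2‖ • w⟫ + ξ.2 * (q ω.1 - q ω.2)) : ℝ) : ℂ) * I) ∂(sg n)) ?_
  refine StronglyMeasurable.integral_prod_right (f := fun (y : (E n × ℝ) × (X × X)) (w : E n) =>
    cexp (((-(⟪y.1.1, ‖p y.2.1 - p y.2.2‖ • w⟫ + y.1.2 * (q y.2.1 - q y.2.2)) : ℝ) : ℂ) * I)) ?_
  refine Measurable.stronglyMeasurable ?_
  unfold Function.uncurry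
  fun_prop

lemma Bc_le (μ1 μ2 : Measure X) [IsProbabilityMeasure μ1] [IsProbabilityMeasure μ2]
    (p : X → E n) (hp : Measurable p) (q : X → ℝ) (hq : Measurable q) (ξ : E n × ℝ) :
    ‖Bc (μ1.prod μ2) p q ξ‖ ≤
      (1 / 2) * ((∫ w, ‖Fc μ1 p q ((-‖ξ.1‖) • w, -ξ.2)‖ ^ 2 ∂(sg n)) +
        ∫ w, ‖Fc μ2 p q ((-‖ξ.1‖) • w, -ξ.2)‖ ^ 2 ∂(sg n)) := by
  have := sg_finite n
  have h1 : Bc (μ1.prod μ2) p q ξ = ∫ w, Fc μ1 p q ((-‖ξ.1‖) • w, -ξ.2) *
      (starRingEnd ℂ) (Fc μ2 p q ((-‖ξ.1‖) • w, -ξ.2)) ∂(sg n) := by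
    unfold Bc
    calc ∫ ω, (∫ w, cexp (((-(⟪ξ.1, ‖p ω.1 - p ω.2‖ • w⟫ +
          ξ.2 * (q ω.1 - q ω.2)) : ℝ) : ℂ) * I) ∂(sg n)) ∂(μ1.prod μ2)
        = ∫ ω, (∫ w, cexp (((⟪(-‖ξ.1‖) • w, p ω.1 - p ω.2⟫ +
          (-ξ.2) * (q ω.1 - q ω.2) : ℝ) : ℂ) * I) ∂(sg n)) ∂(μ1.prod μ2) := by
          congr 1
          funext ω
          rw [sph_swap]
          congr 1
          funext w
          rw [neg_mul]
      _ = ∫ w, (∫ ω, cexp (((⟪(-‖ξ.1‖) • w, p ω.1 - p ω.2⟫ +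
          (-ξ.2) * (q ω.1 - q ω.2) : ℝ) : ℂ) * I) ∂(μ1.prod μ2)) ∂(sg n) := by
          apply integral_integral_swap
          refine Integrable.of_bound (C := 1) ?_ ?_
          · refine Measurable.aestronglyMeasurable ?_
            unfold Function.uncurry
            fun_prop
          · refine Eventually.of_forall fun y => ?_
            unfold Function.uncurry
            rw [Complex.norm_exp_ofReal_mul_I]
      _ = _ := by
          congr 1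
          funext w
          exact Fc_prod μ1 μ2 p q ((-‖ξ.1‖) • w, -ξ.2)
  have hm : ∀ μ : Measure X, IsProbabilityMeasure μ →
      Integrable (fun w : E n => ‖Fc μ p q ((-‖ξ.1‖) • w, -ξ.2)‖ ^ 2) (sg n) := by
    intro μ hμ
    refine Integrable.of_bound (C := 1) ?_ ?_
    · have := (Fc_meas μ p hp q hq).comp (g := Fc μ p q) (f := fun w : E n => ((-‖ξ.1‖) • w, -ξ.2))
        (by fun_prop)
      exact (this.norm.pow_const 2).aestronglyMeasurable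
    · refine Eventually.of_forall fun w => ?_
      rw [Real.norm_eq_abs, abs_of_nonneg (by positivity)]
      exact pow_le_one₀ (norm_nonneg _) (Fc_norm_le μ p q _)
  rw [h1]
  refine (norm_integral_le_integral_norm _).trans ?_
  rw [← integral_add (hm μ1 inferInstance) (hm μ2 inferInstance), ← integral_const_mul]
  apply integral_mono_of_nonneg
  · exact Eventually.of_forall fun w => norm_nonneg _
  · exact ((hm μ1 inferInstance).add (hm μ2 inferInstance)).const_mul _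
  · refine Eventually.of_forall fun w => ?_
    simp only [norm_mul, RCLike.norm_conj]
    nlinarith [sq_nonneg (‖Fc μ1 p q ((-‖ξ.1‖) • w, -ξ.2)‖ - ‖Fc μ2 p q ((-‖ξ.1‖) • w, -ξ.2)‖)]

lemma sph_avg_le (μ : Measure X) [IsProbabilityMeasure μ]
    (p : X → E n) (hp : Measurable p) (q : X → ℝ) (hq : Measurable q) (ξ : E n × ℝ) :
    ∫ w, ‖Fc μ p q ((-‖ξ.1‖) • w, -ξ.2)‖ ^ 2 ∂(sg n) ≤
      ∫ r, ‖T (fun _ : E n => (1 : ℂ)) (‖ξ.1‖ • (p r.1 - p r.2))‖ ∂(μ.prod μ) := by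
  have := sg_finite n
  have h1 : ((∫ w, ‖Fc μ p q ((-‖ξ.1‖) • w, -ξ.2)‖ ^ 2 ∂(sg n) : ℝ) : ℂ) =
      ∫ r, (cexp (((-(ξ.2 * (q r.1 - q r.2)) : ℝ) : ℂ) * I) *
        T (fun _ : E n => (1 : ℂ)) (‖ξ.1‖ • (p r.1 - p r.2))) ∂(μ.prod μ) := by
    rw [← integral_complex_ofReal]
    calc ∫ w, ((‖Fc μ p q ((-‖ξ.1‖) • w, -ξ.2)‖ ^ 2 : ℝ) : ℂ) ∂(sg n)
        = ∫ w, (∫ ω, cexp (((⟪(-‖ξ.1‖) • w, p ω.1 - p ω.2⟫ +
          (-ξ.2) * (q ω.1 - q ω.2) : ℝ) : ℂ) * I) ∂(μ.prod μ)) ∂(sg n) := by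
          congr 1
          funext w
          rw [Fc_sq]
      _ = ∫ ω, (∫ w, cexp (((⟪(-‖ξ.1‖) • w, p ω.1 - p ω.2⟫ +
          (-ξ.2) * (q ω.1 - q ω.2) : ℝ) : ℂ) * I) ∂(sg n)) ∂(μ.prod μ) := by
          apply integral_integral_swap
          refine Integrable.of_bound (C := 1) ?_ ?_
          · refine Measurable.aestronglyMeasurable ?_
            unfold Function.uncurry
            fun_prop
          · refine Eventually.of_forall fun y => ?_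
            unfold Function.uncurry
            rw [Complex.norm_exp_ofReal_mul_I]
      _ = _ := by
          congr 1
          funext r
          unfold T
          rw [← integral_const_mul]
          congr 1
          funext w
          rw [mul_one, ← Complex.exp_add, inner_smul_left, inner_smul_left, real_inner_comm]
          congr 1
          simp only [conj_trivial]
          push_cast
          ring
  have h2 : 0 ≤ ∫ w, ‖Fc μ p q ((-‖ξ.1‖) • w, -ξ.2)‖ ^ 2 ∂(sg n) :=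
    integral_nonneg fun _ => by positivity
  calc ∫ w, ‖Fc μ p q ((-‖ξ.1‖) • w, -ξ.2)‖ ^ 2 ∂(sg n)
      = ‖((∫ w, ‖Fc μ p q ((-‖ξ.1‖) • w, -ξ.2)‖ ^ 2 ∂(sg n) : ℝ) : ℂ)‖ := by
        rw [Complex.norm_real, Real.norm_eq_abs, abs_of_nonneg h2]
    _ ≤ ∫ r, ‖cexp (((-(ξ.2 * (q r.1 - q r.2)) : ℝ) : ℂ) * I) *
        T (fun _ : E n => (1 : ℂ)) (‖ξ.1‖ • (p r.1 - p r.2))‖ ∂(μ.prod μ) := by
        rw [h1]
        exact norm_integral_le_integral_norm _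
    _ = _ := by
        congr 1
        funext r
        rw [norm_mul, Complex.norm_exp_ofReal_mul_I, one_mul]

theorem T_meas (n : ℕ) : Measurable (fun x : E n => T (fun _ : E n => (1 : ℂ)) x) := by
  have := sg_finite n
  refine StronglyMeasurable.measurable ?_
  unfold T
  refine StronglyMeasurable.integral_prod_right (f := fun (x : E n) (w : E n) =>
    cexp (-((⟪x, w⟫ : ℝ) : ℂ) * I) * (1 : ℂ)) ?_
  refine Measurable.stronglyMeasurable ?_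
  unfold Function.uncurry
  fun_prop

/-- the decay of the mean -/
theorem sph_decay (hn : 1 ≤ n) (μ : Measure X) [IsProbabilityMeasure μ]
    (p : X → E n) (hp : Measurable p) (q : X → ℝ) (hq : Measurable q)
    (C s1 : ℝ) (hC : 0 < C) (hs : ((n : ℝ) - 1) / 2 < s1)
    (h : ∀ k : ℕ, (μ.prod μ) {r | ‖p r.1 - p r.2‖ ≤ tau 1 k} ≤ ENNReal.ofReal (C * tau 1 k ^ s1)) :
    ∃ C' : ℝ, 0 < C' ∧ ∀ ξ : E n × ℝ,
      ∫ w, ‖Fc μ p q ((-‖ξ.1‖) • w, -ξ.2)‖ ^ 2 ∂(sg n) ≤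
        C' * (1 + ‖ξ.1‖) ^ (-(((n : ℝ) - 1) / 2)) := by
  have hn1 : (1 : ℝ) ≤ n := by exact_mod_cast hn
  obtain ⟨C1, hC1, hT⟩ := decay1 n hn
  obtain ⟨C2, hC2, hE⟩ := en_decay (μ.prod μ) (fun r => ‖p r.1 - p r.2‖) (by fun_prop)
    (fun _ => norm_nonneg _) C s1 (((n : ℝ) - 1) / 2) hC (by linarith) hs h
  refine ⟨C1 * C2, by positivity, fun ξ => ?_⟩
  refine (sph_avg_le μ p hp q hq ξ).trans ?_
  set s : ℝ := ‖ξ.1‖ with hsdef
  have hs0 : 0 ≤ s := norm_nonneg _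
  have hpt : ∀ r : X × X, ‖T (fun _ : E n => (1 : ℂ)) (s • (p r.1 - p r.2))‖ ≤
      C1 * (1 + s * ‖p r.1 - p r.2‖) ^ (-(((n : ℝ) - 1) / 2)) := by
    intro r
    have := hT (s • (p r.1 - p r.2))
    rwa [norm_smul, Real.norm_eq_abs, abs_of_nonneg hs0] at this
  have hint : Integrable (fun r : X × X =>
      C1 * (1 + s * ‖p r.1 - p r.2‖) ^ (-(((n : ℝ) - 1) / 2))) (μ.prod μ) := by
    refine Integrable.of_bound (C := C1) ?_ ?_
    · refine Measurable.aestronglyMeasurable ?_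
      fun_prop
    · refine Eventually.of_forall fun r => ?_
      have h0 : 0 ≤ s * ‖p r.1 - p r.2‖ := by positivity
      rw [Real.norm_eq_abs, abs_of_nonneg (by positivity)]
      have : (1 + s * ‖p r.1 - p r.2‖) ^ (-(((n : ℝ) - 1) / 2)) ≤ 1 :=
        Real.rpow_le_one_of_one_le_of_nonpos (by linarith) (by linarith)
      nlinarith
  calc ∫ r, ‖T (fun _ : E n => (1 : ℂ)) (s • (p r.1 - p r.2))‖ ∂(μ.prod μ)
      ≤ ∫ r, C1 * (1 + s * ‖p r.1 - p r.2‖) ^ (-(((n : ℝ) - 1) / 2)) ∂(μ.prod μ) := by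
        apply integral_mono_of_nonneg (Eventually.of_forall fun _ => norm_nonneg _) hint
        exact Eventually.of_forall hpt
    _ = C1 * ∫ r, (1 + s * ‖p r.1 - p r.2‖) ^ (-(((n : ℝ) - 1) / 2)) ∂(μ.prod μ) :=
        integral_const_mul _ _
    _ ≤ C1 * (C2 * (1 + s) ^ (-(((n : ℝ) - 1) / 2))) := by
        have := hE s hs0
        gcongr
    _ = _ := by ring

theorem Bc_decay (hn : 1 ≤ n) (μ1 μ2 : Measure X) [IsProbabilityMeasure μ1]
    [IsProbabilityMeasure μ2] (p : X → E n) (hp : Measurable p) (q : X → ℝ) (hq : Measurable q)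
    (C s1 : ℝ) (hC : 0 < C) (hs : ((n : ℝ) - 1) / 2 < s1)
    (h1 : ∀ k : ℕ, (μ1.prod μ1) {r | ‖p r.1 - p r.2‖ ≤ tau 1 k} ≤
      ENNReal.ofReal (C * tau 1 k ^ s1))
    (h2 : ∀ k : ℕ, (μ2.prod μ2) {r | ‖p r.1 - p r.2‖ ≤ tau 1 k} ≤
      ENNReal.ofReal (C * tau 1 k ^ s1)) :
    ∃ C' : ℝ, 0 < C' ∧ ∀ ξ : E n × ℝ,
      ‖Bc (μ1.prod μ2) p q ξ‖ ≤ C' * (1 + ‖ξ.1‖) ^ (-(((n : ℝ) - 1) / 2)) := by
  obtain ⟨A1, hA1, hS1⟩ := sph_decay hn μ1 p hp q hq C s1 hC hs h1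
  obtain ⟨A2, hA2, hS2⟩ := sph_decay hn μ2 p hp q hq C s1 hC hs h2
  refine ⟨A1 + A2, by positivity, fun ξ => ?_⟩
  refine (Bc_le μ1 μ2 p hp q hq ξ).trans ?_
  have := hS1 ξ
  have := hS2 ξ
  have h0 : 0 ≤ (1 + ‖ξ.1‖) ^ (-(((n : ℝ) - 1) / 2)) := by positivity
  nlinarith

end Pool.Agent.Y270.FD
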