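import Mathlib
import Pool.Agent.Y270.FD.Bd

set_option autoImplicit false

/-! The two-scale energy and its telescoping differences. -/

namespace Pool.Agent.Y270.FD

open MeasureTheory Set Metric Filter Topology Complex
open scoped ENNReal RealInnerProductSpace
open Pool.Agent.H789R2.FR

variable {X : Type*} [MeasurableSpace X] {n : ℕ}

/-- two-scale energy -/
noncomputable def U (P : Measure (X × X)) (p : X → E n) (q : X → ℝ) (a b : ℝ) : ℝ :=
  ∫ r : (X × X) × (X × X), W a (p r.1.1 - p r.1.2) (p r.2.1 - p r.2.2) *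
    Real.exp (-(((q r.1.1 - q r.1.2) - (q r.2.1 - q r.2.2)) ^ 2 / b ^ 2)) ∂(P.prod P)

lemma U_nonneg (P : Measure (X × X)) (p : X → E n) (q : X → ℝ) (a b : ℝ) : 0 ≤ U P p q a b :=
  integral_nonneg fun _ => mul_nonneg (W_nonneg _ _ _) (Real.exp_pos _).le

lemma U_eq (μ1 μ2 : Measure X) [IsProbabilityMeasure μ1] [IsProbabilityMeasure μ2]
    (p : X → E n) (hp : Measurable p) (q : X → ℝ) (hq : Measurable q) (a b : ℝ) (ha : 0 < a)
    (hb : 0 < b) :
    ((Kc n / (a ^ n * b) * U (μ1.prod μ2) p q a b : ℝ) : ℂ) =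
      ∫ ξ : E n × ℝ, ((gw a b ξ : ℝ) : ℂ) *
        (Fc μ1 p q ξ * (starRingEnd ℂ) (Fc μ2 p q ξ) * Bc (μ1.prod μ2) p q ξ) := by
  have := sg_finite n
  set P := μ1.prod μ2 with hP
  set v : ((X × X) × (X × X)) × E n → E n := fun θ =>
    (p θ.1.1.1 - p θ.1.1.2) - ‖p θ.1.2.1 - p θ.1.2.2‖ • θ.2 with hv
  set g : ((X × X) × (X × X)) × E n → ℝ := fun θ =>
    (q θ.1.1.1 - q θ.1.1.2) - (q θ.1.2.1 - q θ.1.2.2) with hg
  have hvm : Measurable v := by rw [hv]; fun_prop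
  have hgm : Measurable g := by rw [hg]; fun_prop
  have h := key ((P.prod P).prod (sg n)) v hvm g hgm a b ha hb
  have h1 : ∫ θ, Real.exp (-(‖v θ‖ ^ 2 / a ^ 2)) * Real.exp (-(g θ ^ 2 / b ^ 2))
      ∂((P.prod P).prod (sg n)) = U P p q a b := by
    rw [integral_prod]
    · unfold U W
      congr 1
      funext r
      rw [← integral_mul_const]
    · refine Integrable.of_bound (C := 1) ?_ ?_
      · refine Measurable.aestronglyMeasurable ?_
        fun_prop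
      · refine Eventually.of_forall fun θ => ?_
        rw [← Real.exp_add, Real.norm_eq_abs, abs_of_pos (Real.exp_pos _)]
        apply Real.exp_le_one_iff.2
        have : 0 ≤ ‖v θ‖ ^ 2 / a ^ 2 := by positivity
        have : 0 ≤ g θ ^ 2 / b ^ 2 := by positivity
        linarith
  rw [h1] at h
  rw [← h]
  congr 1
  funext ξ
  congr 1
  rw [integral_prod]
  · have h2 : ∀ r : (X × X) × (X × X), ∫ w, cexp (((⟪ξ.1, v (r, w)⟫ + ξ.2 * g (r, w) : ℝ) : ℂ) * I)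
        ∂(sg n) = cexp (((⟪ξ.1, p r.1.1 - p r.1.2⟫ + ξ.2 * (q r.1.1 - q r.1.2) : ℝ) : ℂ) * I) *
        ∫ w, cexp (((-(⟪ξ.1, ‖p r.2.1 - p r.2.2‖ • w⟫ + ξ.2 * (q r.2.1 - q r.2.2)) : ℝ) : ℂ) * I)
          ∂(sg n) := by
      intro r
      rw [← integral_const_mul]
      congr 1
      funext w
      rw [← Complex.exp_add, hv, hg]
      congr 1
      simp only
      rw [inner_sub_right]
      push_cast
      ring
    simp_rw [h2]
    rw [integral_prod_mul (f := fun ω : X × X =>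
      cexp (((⟪ξ.1, p ω.1 - p ω.2⟫ + ξ.2 * (q ω.1 - q ω.2) : ℝ) : ℂ) * I))
      (g := fun ω : X × X => ∫ w, cexp (((-(⟪ξ.1, ‖p ω.1 - p ω.2‖ • w⟫ +
        ξ.2 * (q ω.1 - q ω.2)) : ℝ) : ℂ) * I) ∂(sg n)), hP, Fc_prod, Bc]
  · refine Integrable.of_bound (C := 1) ?_ ?_
    · refine Measurable.aestronglyMeasurable ?_
      fun_prop
    · refine Eventually.of_forall fun θ => ?_
      rw [Complex.norm_exp_ofReal_mul_I]

/-- normalised two-scale energy at dyadic scales -/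
noncomputable def Aj (P : Measure (X × X)) (p : X → E n) (q : X → ℝ) (κ : ℝ) (i j : ℕ) : ℝ :=
  (tau κ i ^ n)⁻¹ * U P p q (tau κ i) (tau κ j)

lemma Aj_eq (μ1 μ2 : Measure X) [IsProbabilityMeasure μ1] [IsProbabilityMeasure μ2]
    (p : X → E n) (hp : Measurable p) (q : X → ℝ) (hq : Measurable q) (κ : ℝ) (hκ : 0 < κ)
    (i j : ℕ) :
    ((Aj (μ1.prod μ2) p q κ i j : ℝ) : ℂ) = ((tau κ j / Kc n : ℝ) : ℂ) *
      ∫ ξ : E n × ℝ, ((gw (tau κ i) (tau κ j) ξ : ℝ) : ℂ) *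
        (Fc μ1 p q ξ * (starRingEnd ℂ) (Fc μ2 p q ξ) * Bc (μ1.prod μ2) p q ξ) := by
  rw [← U_eq μ1 μ2 p hp q hq _ _ (tau_pos hκ i) (tau_pos hκ j), ← Complex.ofReal_mul]
  congr 1
  unfold Aj
  have := tau_pos hκ i
  have := tau_pos hκ j
  have := Kc_pos n
  field_simp

theorem Aj_diff (hn : 1 ≤ n) (μ1 μ2 : Measure X) [IsProbabilityMeasure μ1]
    [IsProbabilityMeasure μ2]
    (p : X → E n) (hp : Measurable p) (q : X → ℝ) (hq : Measurable q) (κ : ℝ) (hκ : 0 < κ)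
    (CB : ℝ) (hCB : 0 < CB)
    (hB : ∀ ξ : E n × ℝ, ‖Bc (μ1.prod μ2) p q ξ‖ ≤ CB * (1 + ‖ξ.1‖) ^ (-(((n : ℝ) - 1) / 2)))
    (C1 s0 : ℝ) (hC1 : 0 < C1) (hs0 : s0 ≤ ((n : ℝ) + 3) / 2)
    (hG1 : ∀ a b : ℝ, 0 < b → b ≤ a → Gen μ1 p q a b ≤ C1 * a ^ s0)
    (hG2 : ∀ a b : ℝ, 0 < b → b ≤ a → Gen μ2 p q a b ≤ C1 * a ^ s0) :
    ∃ C : ℝ, 0 < C ∧ ∀ j : ℕ, |Aj (μ1.prod μ2) p q κ (j + 1) (j + 1) -
      Aj (μ1.prod μ2) p q κ j (j + 1)| ≤ C * tau κ (j + 1) ^ (s0 - ((n : ℝ) + 1) / 2) := by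
  have hn1 : (1 : ℝ) ≤ n := by exact_mod_cast hn
  set β : ℝ := ((n : ℝ) - 1) / 2 with hβ
  have hβ0 : 0 ≤ β := by rw [hβ]; linarith
  obtain ⟨CP, hCP, hpi⟩ := pi_ineq κ β hκ hβ0
  have hKc := Kc_pos n
  set P := μ1.prod μ2 with hP
  refine ⟨2 * (CB * CP * C1), by positivity, fun j => ?_⟩
  set τ : ℝ := tau κ (j + 1) with hτ
  have hτp : 0 < τ := tau_pos hκ _
  have hτ2 : tau κ j = 2 * τ := by rw [hτ, tau_succ]; ring
  set Ψ : E n × ℝ → ℂ := fun ξ =>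
    Fc μ1 p q ξ * (starRingEnd ℂ) (Fc μ2 p q ξ) * Bc P p q ξ with hΨ
  have hΨm : Measurable Ψ := by
    have m1 := Fc_meas μ1 p hp q hq
    have m2 := Fc_meas μ2 p hp q hq
    have m3 := Bc_meas P p hp q hq
    exact (m1.mul (Complex.continuous_conj.measurable.comp m2)).mul m3
  set e : E n × ℝ → ℝ := fun ξ => (1 / 2) * (‖Fc μ1 p q ξ‖ ^ 2 + ‖Fc μ2 p q ξ‖ ^ 2) with he
  have he0 : ∀ ξ, 0 ≤ e ξ := fun ξ => by rw [he]; positivity
  have hΨe : ∀ ξ, ‖Ψ ξ‖ ≤ e ξ * (CB * (1 + ‖ξ.1‖) ^ (-β)) := by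
    intro ξ
    rw [hΨ]
    simp only [norm_mul, RCLike.norm_conj]
    refine mul_le_mul ?_ (hB ξ) (norm_nonneg _) (he0 ξ)
    rw [he]
    nlinarith [sq_nonneg (‖Fc μ1 p q ξ‖ - ‖Fc μ2 p q ξ‖)]
  have hgi : ∀ i : ℕ, Integrable (gw (tau κ i) τ : E n × ℝ → ℝ) := fun i =>
    gw_integrable _ _ (tau_pos hκ i) hτp
  have hFi : ∀ (μ : Measure X), IsProbabilityMeasure μ → ∀ i : ℕ,
      Integrable (fun ξ : E n × ℝ => gw (tau κ i) τ ξ * ‖Fc μ p q ξ‖ ^ 2) := by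
    intro μ hμ i
    refine (hgi i).mul_bdd (c := 1) ?_ ?_
    · exact ((Fc_meas μ p hp q hq).norm.pow_const 2).aestronglyMeasurable
    · refine Eventually.of_forall fun ξ => ?_
      rw [Real.norm_eq_abs, abs_of_nonneg (by positivity)]
      exact pow_le_one₀ (norm_nonneg _) (Fc_norm_le μ p q _)
  have hΨi : ∀ i : ℕ, Integrable (fun ξ : E n × ℝ => ((gw (tau κ i) τ ξ : ℝ) : ℂ) * Ψ ξ) := by
    intro i
    refine ((hgi i).ofReal (𝕜 := ℂ)).mul_bdd (c := CB) hΨm.aestronglyMeasurable ?_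
    refine Eventually.of_forall fun ξ => ?_
    have h1 := Fc_norm_le μ1 p q ξ
    have h2 := Fc_norm_le μ2 p q ξ
    have h3 := hB ξ
    have h4 : (1 + ‖ξ.1‖) ^ (-β) ≤ 1 :=
      Real.rpow_le_one_of_one_le_of_nonpos (by linarith [norm_nonneg ξ.1]) (by linarith)
    rw [hΨ]
    simp only [norm_mul, RCLike.norm_conj]
    have h5 : ‖Fc μ1 p q ξ‖ * ‖Fc μ2 p q ξ‖ ≤ 1 := mul_le_one₀ h1 (norm_nonneg _) h2
    have h6 : ‖Bc P p q ξ‖ ≤ CB := h3.trans (by nlinarith)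
    calc ‖Fc μ1 p q ξ‖ * ‖Fc μ2 p q ξ‖ * ‖Bc P p q ξ‖ ≤ 1 * CB :=
          mul_le_mul h5 h6 (norm_nonneg _) zero_le_one
      _ = CB := one_mul _
  -- the difference as one integral
  have hdiff : ((Aj P p q κ (j + 1) (j + 1) - Aj P p q κ j (j + 1) : ℝ) : ℂ) =
      ((τ / Kc n : ℝ) : ℂ) * ∫ ξ : E n × ℝ,
        (((gw τ τ ξ - gw (tau κ j) τ ξ : ℝ)) : ℂ) * Ψ ξ := by
    rw [Complex.ofReal_sub, Aj_eq μ1 μ2 p hp q hq κ hκ, Aj_eq μ1 μ2 p hp q hq κ hκ, ← mul_sub,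
      ← integral_sub (hΨi (j + 1)) (hΨi j)]
    congr 1
    apply integral_congr_ae
    refine Eventually.of_forall fun ξ => ?_
    simp only
    push_cast
    ring
  -- pointwise bound for the integrand
  have hpt : ∀ ξ : E n × ℝ, ‖(((gw τ τ ξ - gw (tau κ j) τ ξ : ℝ)) : ℂ) * Ψ ξ‖ ≤
      ∑ i ∈ Finset.range (j + 1 + 1), (CB * CP * (tau κ i ^ (β - 2) * τ ^ 2)) *
        ((1 / 2) * (gw (tau κ i) τ ξ * ‖Fc μ1 p q ξ‖ ^ 2 + gw (tau κ i) τ ξ * ‖Fc μ2 p q ξ‖ ^ 2)) := by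
    intro ξ
    set s : ℝ := ‖ξ.1‖ with hs
    have hs0' : 0 ≤ s := norm_nonneg _
    set V : ℝ := Real.exp (-(τ ^ 2 * ξ.2 ^ 2 / 4)) with hV
    have hVp : 0 < V := Real.exp_pos _
    have e1 : gw τ τ ξ - gw (tau κ j) τ ξ =
        (Real.exp (-(τ ^ 2 * s ^ 2 / 4)) - Real.exp (-(τ ^ 2 * s ^ 2))) * V := by
      unfold gw
      rw [hτ2, ← hs, ← hV]
      rw [show (2 * τ) ^ 2 * s ^ 2 / 4 = τ ^ 2 * s ^ 2 by ring]
      ring
    have e2 : 0 ≤ gw τ τ ξ - gw (tau κ j) τ ξ := by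
      rw [e1]
      apply mul_nonneg _ hVp.le
      rw [sub_nonneg]
      apply Real.exp_le_exp.2
      have : 0 ≤ τ ^ 2 * s ^ 2 := by positivity
      linarith
    have e3 := hpi (j + 1) s hs0'
    rw [← hτ] at e3
    rw [norm_mul, Complex.norm_real, Real.norm_eq_abs, abs_of_nonneg e2]
    calc (gw τ τ ξ - gw (tau κ j) τ ξ) * ‖Ψ ξ‖
        ≤ (gw τ τ ξ - gw (tau κ j) τ ξ) * (e ξ * (CB * (1 + s) ^ (-β))) := by
          have := hΨe ξ
          gcongr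
      _ = (CB * e ξ * V) * ((Real.exp (-(τ ^ 2 * s ^ 2 / 4)) - Real.exp (-(τ ^ 2 * s ^ 2))) *
            (1 + s) ^ (-β)) := by rw [e1]; ring
      _ ≤ (CB * e ξ * V) * (CP * ∑ i ∈ Finset.range (j + 1 + 1), tau κ i ^ (β - 2) * τ ^ 2 *
          Real.exp (-(tau κ i ^ 2 * s ^ 2 / 4))) := by
          have := he0 ξ
          gcongr
      _ = _ := by
          rw [Finset.mul_sum, Finset.mul_sum]
          apply Finset.sum_congr rfl
          intro i _
          rw [he]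
          unfold gw
          simp only
          rw [← hs, ← hV]
          ring
  have hsumint : Integrable (fun ξ : E n × ℝ => ∑ i ∈ Finset.range (j + 1 + 1),
      (CB * CP * (tau κ i ^ (β - 2) * τ ^ 2)) *
        ((1 / 2) * (gw (tau κ i) τ ξ * ‖Fc μ1 p q ξ‖ ^ 2 +
          gw (tau κ i) τ ξ * ‖Fc μ2 p q ξ‖ ^ 2))) := by
    apply integrable_finsetSum
    intro i _
    exact (((hFi μ1 inferInstance i).add (hFi μ2 inferInstance i)).const_mul _).const_mul _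
  have hmain : |Aj P p q κ (j + 1) (j + 1) - Aj P p q κ j (j + 1)| ≤
      τ / Kc n * ∑ i ∈ Finset.range (j + 1 + 1), (CB * CP * (tau κ i ^ (β - 2) * τ ^ 2)) *
        (Kc n / (tau κ i ^ n * τ) * (C1 * tau κ i ^ s0)) := by
    calc |Aj P p q κ (j + 1) (j + 1) - Aj P p q κ j (j + 1)|
        = ‖((Aj P p q κ (j + 1) (j + 1) - Aj P p q κ j (j + 1) : ℝ) : ℂ)‖ := by
          rw [Complex.norm_real, Real.norm_eq_abs]
      _ = τ / Kc n * ‖∫ ξ : E n × ℝ, (((gw τ τ ξ - gw (tau κ j) τ ξ : ℝ)) : ℂ) * Ψ ξ‖ := by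
          rw [hdiff, norm_mul, Complex.norm_real, Real.norm_eq_abs, abs_of_pos (by positivity)]
      _ ≤ τ / Kc n * ∫ ξ : E n × ℝ, ∑ i ∈ Finset.range (j + 1 + 1),
          (CB * CP * (tau κ i ^ (β - 2) * τ ^ 2)) *
          ((1 / 2) * (gw (tau κ i) τ ξ * ‖Fc μ1 p q ξ‖ ^ 2 +
            gw (tau κ i) τ ξ * ‖Fc μ2 p q ξ‖ ^ 2)) := by
          gcongr
          exact norm_integral_le_of_norm_le hsumint (Eventually.of_forall hpt)
      _ ≤ _ := by
          gcongr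
          rw [integral_finsetSum]
          · apply Finset.sum_le_sum
            intro i hi
            have hip : 0 < tau κ i := tau_pos hκ i
            have hiτ : τ ≤ tau κ i := by
              rw [hτ]; exact tau_anti hκ (Nat.lt_succ_iff.1 (Finset.mem_range.1 hi))
            rw [integral_const_mul, integral_const_mul,
              integral_add (hFi μ1 inferInstance i) (hFi μ2 inferInstance i),
              energy μ1 p hp q hq _ _ hip hτp, energy μ2 p hp q hq _ _ hip hτp]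
            have g1 := hG1 (tau κ i) τ hτp hiτ
            have g2 := hG2 (tau κ i) τ hτp hiτ
            have hk : 0 < Kc n / (tau κ i ^ n * τ) := by positivity
            have g3 := mul_le_mul_of_nonneg_left g1 hk.le
            have g4 := mul_le_mul_of_nonneg_left g2 hk.le
            have g5 : 0 ≤ CB * CP * (tau κ i ^ (β - 2) * τ ^ 2) := by positivity
            refine mul_le_mul_of_nonneg_left ?_ g5
            linarith
          · intro i _
            exact (((hFi μ1 inferInstance i).add (hFi μ2 inferInstance i)).const_mul _).const_mul _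
  refine hmain.trans ?_
  set ε : ℝ := s0 - ((n : ℝ) + 1) / 2 with hε
  have hε1 : ε ≤ 1 := by rw [hε]; linarith
  have hsum := tau_sum κ ε hκ hε1 (j + 1)
  calc τ / Kc n * ∑ i ∈ Finset.range (j + 1 + 1), (CB * CP * (tau κ i ^ (β - 2) * τ ^ 2)) *
        (Kc n / (tau κ i ^ n * τ) * (C1 * tau κ i ^ s0))
      = (CB * CP * C1 * τ ^ 2) * ∑ i ∈ Finset.range (j + 1 + 1), tau κ i ^ (ε - 2) := by
        rw [Finset.mul_sum, Finset.mul_sum]
        apply Finset.sum_congr rfl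
        intro i _
        have hip : 0 < tau κ i := tau_pos hκ i
        have e1 : tau κ i ^ (ε - 2) = tau κ i ^ (β - 2) * tau κ i ^ s0 / tau κ i ^ n := by
          rw [← Real.rpow_natCast (tau κ i) n, ← Real.rpow_add hip, ← Real.rpow_sub hip]
          congr 1
          rw [hε, hβ]
          ring
        rw [e1]
        field_simp
    _ ≤ (CB * CP * C1 * τ ^ 2) * (2 * τ ^ (ε - 2)) := by gcongr
    _ = 2 * (CB * CP * C1) * τ ^ ε := by
        have e2 : τ ^ 2 * τ ^ (ε - 2) = τ ^ ε := by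
          rw [← Real.rpow_natCast τ 2, ← Real.rpow_add hτp]
          congr 1
          push_cast
          ring
        rw [← e2]
        ring

end Pool.Agent.Y270.FD
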