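import Mathlib
import Pool.Agent.Y270.FD.Tel

set_option autoImplicit false

/-! The averaged collision bound. -/

namespace Pool.Agent.Y270.FD

open MeasureTheory Set Metric Filter Topology Complex
open scoped ENNReal RealInnerProductSpace
open Pool.Agent.H789R2.FR

variable {X : Type*} [MeasurableSpace X] {n : ℕ}

lemma W_meas (a : ℝ) : Measurable (fun z : E n × E n => W a z.1 z.2) := by
  have := sg_finite n
  refine StronglyMeasurable.measurable ?_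
  unfold W
  refine StronglyMeasurable.integral_prod_right (f := fun (z : E n × E n) (w : E n) =>
    Real.exp (-(‖z.1 - ‖z.2‖ • w‖ ^ 2 / a ^ 2))) ?_
  refine Measurable.stronglyMeasurable ?_
  unfold Function.uncurry
  fun_prop

lemma W_le (a : ℝ) (z1 z2 : E n) : W a z1 z2 ≤ (sg n).real univ := by
  have := sg_finite n
  unfold W
  have h1 : (sg n).real univ = ∫ w, (1 : ℝ) ∂(sg n) := by simp
  rw [h1]
  apply integral_mono_of_nonneg
  · exact Eventually.of_forall fun w => (Real.exp_pos _).le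
  · exact integrable_const _
  · refine Eventually.of_forall fun w => ?_
    apply Real.exp_le_one_iff.2
    have : 0 ≤ ‖z1 - ‖z2‖ • w‖ ^ 2 / a ^ 2 := by positivity
    linarith

/-- the `(i,j)` summand -/
noncomputable def gij (p : X → E n) (q : X → ℝ) (κ : ℝ) (i j : ℕ)
    (r : (X × X) × (X × X)) : ℝ :=
  (tau κ i ^ n)⁻¹ * (W (tau κ i) (p r.1.1 - p r.1.2) (p r.2.1 - p r.2.2) *
    Real.exp (-(((q r.1.1 - q r.1.2) - (q r.2.1 - q r.2.2)) ^ 2 / tau κ j ^ 2)))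

lemma gij_int (P : Measure (X × X)) [IsProbabilityMeasure P] (p : X → E n) (hp : Measurable p)
    (q : X → ℝ) (hq : Measurable q) (κ : ℝ) (i j : ℕ) :
    Integrable (gij p q κ i j) (P.prod P) := by
  unfold gij
  refine Integrable.const_mul ?_ _
  refine Integrable.of_bound (C := (sg n).real univ) ?_ ?_
  · refine Measurable.aestronglyMeasurable ?_
    refine Measurable.mul ?_ (by fun_prop)
    exact (W_meas (tau κ i)).comp (g := fun z : E n × E n => W (tau κ i) z.1 z.2)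
      (f := fun r : (X × X) × (X × X) => (p r.1.1 - p r.1.2, p r.2.1 - p r.2.2)) (by fun_prop)
  · refine Eventually.of_forall fun r => ?_
    have h1 := W_nonneg (tau κ i) (p r.1.1 - p r.1.2) (p r.2.1 - p r.2.2)
    have h2 := W_le (tau κ i) (p r.1.1 - p r.1.2) (p r.2.1 - p r.2.2)
    rw [Real.norm_eq_abs, abs_of_nonneg (by positivity)]
    have h3 : Real.exp (-(((q r.1.1 - q r.1.2) - (q r.2.1 - q r.2.2)) ^ 2 / tau κ j ^ 2)) ≤ 1 :=
      Real.exp_le_one_iff.2 (by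
        have : 0 ≤ ((q r.1.1 - q r.1.2) - (q r.2.1 - q r.2.2)) ^ 2 / tau κ j ^ 2 := by positivity
        linarith)
    have h4 : 0 < Real.exp (-(((q r.1.1 - q r.1.2) - (q r.2.1 - q r.2.2)) ^ 2 / tau κ j ^ 2)) :=
      Real.exp_pos _
    nlinarith

lemma gij_integral (P : Measure (X × X)) (p : X → E n) (q : X → ℝ) (κ : ℝ) (i j : ℕ) :
    ∫ r, gij p q κ i j r ∂(P.prod P) = Aj P p q κ i j := by
  unfold gij Aj U
  rw [integral_const_mul]

lemma ker_eq (p : X → E n) (q : X → ℝ) (κ : ℝ) (J : ℕ) (r : (X × X) × (X × X)) :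
    ker κ J (p r.1.1 - p r.1.2) (p r.2.1 - p r.2.2) ((q r.1.1 - q r.1.2) - (q r.2.1 - q r.2.2)) =
      ∑ j ∈ Finset.range (J + 1), (gij p q κ j j r - gij p q κ j (j + 1) r) +
        gij p q κ (J + 1) (J + 1) r := by
  unfold ker trm gij
  congr 1
  · apply Finset.sum_congr rfl
    intro j _
    ring
  · ring

lemma telescope (a : ℕ → ℕ → ℝ) (J : ℕ) :
    ∑ j ∈ Finset.range (J + 1), (a j j - a j (j + 1)) + a (J + 1) (J + 1) =
      a 0 0 + ∑ j ∈ Finset.range (J + 1), (a (j + 1) (j + 1) - a j (j + 1)) := by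
  have h := Finset.sum_range_succ' (fun j => a j j) (J + 1)
  have h2 := Finset.sum_range_succ (fun j => a j j) (J + 1)
  rw [Finset.sum_sub_distrib, Finset.sum_sub_distrib]
  linarith

lemma ker_integrable (P : Measure (X × X)) [IsProbabilityMeasure P] (p : X → E n)
    (hp : Measurable p) (q : X → ℝ) (hq : Measurable q) (κ : ℝ) (J : ℕ) :
    Integrable (fun r : (X × X) × (X × X) => ker κ J (p r.1.1 - p r.1.2) (p r.2.1 - p r.2.2)
      ((q r.1.1 - q r.1.2) - (q r.2.1 - q r.2.2))) (P.prod P) := by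
  simp_rw [ker_eq]
  refine Integrable.add ?_ (gij_int P p hp q hq κ _ _)
  apply integrable_finsetSum
  intro j _
  exact (gij_int P p hp q hq κ _ _).sub (gij_int P p hp q hq κ _ _)

lemma ker_integral (P : Measure (X × X)) [IsProbabilityMeasure P] (p : X → E n)
    (hp : Measurable p) (q : X → ℝ) (hq : Measurable q) (κ : ℝ) (J : ℕ) :
    ∫ r : (X × X) × (X × X), ker κ J (p r.1.1 - p r.1.2) (p r.2.1 - p r.2.2)
      ((q r.1.1 - q r.1.2) - (q r.2.1 - q r.2.2)) ∂(P.prod P) =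
      Aj P p q κ 0 0 + ∑ j ∈ Finset.range (J + 1),
        (Aj P p q κ (j + 1) (j + 1) - Aj P p q κ j (j + 1)) := by
  simp_rw [ker_eq]
  rw [integral_add, integral_finsetSum]
  · rw [← telescope (fun i j => Aj P p q κ i j) J, gij_integral]
    congr 1
    apply Finset.sum_congr rfl
    intro j _
    rw [integral_sub (gij_int P p hp q hq κ _ _) (gij_int P p hp q hq κ _ _), gij_integral,
      gij_integral]
  · intro j _
    exact (gij_int P p hp q hq κ _ _).sub (gij_int P p hp q hq κ _ _)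
  · apply integrable_finsetSum
    intro j _
    exact (gij_int P p hp q hq κ _ _).sub (gij_int P p hp q hq κ _ _)
  · exact gij_int P p hp q hq κ _ _

/-- the telescoping kernel has bounded integral -/
theorem ker_bdd (hn : 1 ≤ n) (μ1 μ2 : Measure X) [IsProbabilityMeasure μ1]
    [IsProbabilityMeasure μ2]
    (p : X → E n) (hp : Measurable p) (q : X → ℝ) (hq : Measurable q) (κ : ℝ) (hκ : 0 < κ)
    (C1 s0 : ℝ) (hC1 : 0 < C1) (hs0 : s0 ≤ ((n : ℝ) + 3) / 2) (hs0' : ((n : ℝ) + 1) / 2 < s0)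
    (hG1 : ∀ a b : ℝ, 0 < b → b ≤ a → Gen μ1 p q a b ≤ C1 * a ^ s0)
    (hG2 : ∀ a b : ℝ, 0 < b → b ≤ a → Gen μ2 p q a b ≤ C1 * a ^ s0)
    (h1 : ∀ k : ℕ, (μ1.prod μ1) {r | ‖p r.1 - p r.2‖ ≤ tau 1 k} ≤
      ENNReal.ofReal (C1 * tau 1 k ^ (s0 - 1)))
    (h2 : ∀ k : ℕ, (μ2.prod μ2) {r | ‖p r.1 - p r.2‖ ≤ tau 1 k} ≤
      ENNReal.ofReal (C1 * tau 1 k ^ (s0 - 1))) :
    ∃ C : ℝ, 0 < C ∧ ∀ J : ℕ, ∫ r : (X × X) × (X × X),
      ker κ J (p r.1.1 - p r.1.2) (p r.2.1 - p r.2.2)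
      ((q r.1.1 - q r.1.2) - (q r.2.1 - q r.2.2)) ∂((μ1.prod μ2).prod (μ1.prod μ2)) ≤ C := by
  obtain ⟨CB, hCB, hB⟩ := Bc_decay hn μ1 μ2 p hp q hq C1 (s0 - 1) hC1 (by linarith) h1 h2
  obtain ⟨C2, hC2, hD⟩ := Aj_diff hn μ1 μ2 p hp q hq κ hκ CB hCB hB C1 s0 hC1 hs0 hG1 hG2
  set ε : ℝ := s0 - ((n : ℝ) + 1) / 2 with hε
  have hεp : 0 < ε := by rw [hε]; linarith
  set ρ : ℝ := (1 / 2) ^ ε with hρ
  have hρ0 : 0 < ρ := by positivity
  have hρ1 : ρ < 1 := Real.rpow_lt_one (by norm_num) (by norm_num) hεp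
  have hterm : ∀ j : ℕ, tau κ (j + 1) ^ ε = κ ^ ε * ρ * ρ ^ j := by
    intro j
    rw [tau, Real.mul_rpow hκ.le (by positivity), hρ, mul_assoc, ← pow_succ', ← Real.rpow_natCast,
      ← Real.rpow_natCast, ← Real.rpow_mul (by norm_num), ← Real.rpow_mul (by norm_num)]
    congr 2
    ring
  have hsum : Summable fun j : ℕ => C2 * (κ ^ ε * ρ * ρ ^ j) :=
    ((summable_geometric_of_lt_one hρ0.le hρ1).mul_left _).mul_left _
  have hA0 : 0 ≤ Aj (μ1.prod μ2) p q κ 0 0 := by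
    unfold Aj
    have := U_nonneg (μ1.prod μ2) p q (tau κ 0) (tau κ 0)
    have := tau_pos hκ 0
    positivity
  have hS0 : 0 ≤ ∑' j : ℕ, C2 * (κ ^ ε * ρ * ρ ^ j) := tsum_nonneg fun j => by positivity
  refine ⟨Aj (μ1.prod μ2) p q κ 0 0 + ∑' j : ℕ, C2 * (κ ^ ε * ρ * ρ ^ j) + 1, by linarith,
    fun J => ?_⟩
  rw [ker_integral (μ1.prod μ2) p hp q hq κ J]
  have h3 : ∑ j ∈ Finset.range (J + 1),
      (Aj (μ1.prod μ2) p q κ (j + 1) (j + 1) - Aj (μ1.prod μ2) p q κ j (j + 1)) ≤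
      ∑' j : ℕ, C2 * (κ ^ ε * ρ * ρ ^ j) := by
    calc ∑ j ∈ Finset.range (J + 1),
        (Aj (μ1.prod μ2) p q κ (j + 1) (j + 1) - Aj (μ1.prod μ2) p q κ j (j + 1))
        ≤ ∑ j ∈ Finset.range (J + 1), C2 * (κ ^ ε * ρ * ρ ^ j) := by
          apply Finset.sum_le_sum
          intro j _
          rw [← hterm j]
          exact (le_abs_self _).trans (hD j)
      _ ≤ _ := hsum.sum_le_tsum _ fun j _ => by positivity
  linarith

/-- the squared distance for the stretched metric -/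
noncomputable def ff (p : X → E n) (q : X → ℝ) (t : ℝ) (ω : X × X) : ℝ :=
  ‖p ω.1 - p ω.2‖ ^ 2 + t ^ 2 * (q ω.1 - q ω.2) ^ 2

lemma ff_meas (p : X → E n) (hp : Measurable p) (q : X → ℝ) (hq : Measurable q) :
    Measurable (Function.uncurry (ff p q)) := by
  unfold ff Function.uncurry
  fun_prop

theorem col (hn : 1 ≤ n) (μ1 μ2 : Measure X) [IsProbabilityMeasure μ1]
    [IsProbabilityMeasure μ2]
    (p : X → E n) (hp : Measurable p) (q : X → ℝ) (hq : Measurable q) (κ : ℝ) (hκ : 0 < κ)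
    (C1 s0 : ℝ) (hC1 : 0 < C1) (hs0 : s0 ≤ ((n : ℝ) + 3) / 2) (hs0' : ((n : ℝ) + 1) / 2 < s0)
    (hG1 : ∀ a b : ℝ, 0 < b → b ≤ a → Gen μ1 p q a b ≤ C1 * a ^ s0)
    (hG2 : ∀ a b : ℝ, 0 < b → b ≤ a → Gen μ2 p q a b ≤ C1 * a ^ s0)
    (h1 : ∀ k : ℕ, (μ1.prod μ1) {r | ‖p r.1 - p r.2‖ ≤ tau 1 k} ≤
      ENNReal.ofReal (C1 * tau 1 k ^ (s0 - 1)))
    (h2 : ∀ k : ℕ, (μ2.prod μ2) {r | ‖p r.1 - p r.2‖ ≤ tau 1 k} ≤
      ENNReal.ofReal (C1 * tau 1 k ^ (s0 - 1)))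
    (c0 R l1 l2 : ℝ) (hc0 : 0 < c0) (hκc : κ ≤ c0) (hl1 : 0 < l1) (hl : l1 ≤ l2)
    (hsep : ∀ᵐ r ∂(μ1.prod μ2), c0 ≤ ‖p r.1 - p r.2‖ ∧ ‖p r.1 - p r.2‖ ≤ R ∧
      c0 ≤ q r.1 - q r.2 ∧ q r.1 - q r.2 ≤ R) :
    ∃ C : ℝ≥0∞, C ≠ ⊤ ∧ ∀ J : ℕ, ∫⁻ t in Icc l1 l2,
      ((μ1.prod μ2).prod (μ1.prod μ2)) {r | |ff p q t r.1 - ff p q t r.2| ≤ tau κ (J + 1)} ≤
        ENNReal.ofReal (tau κ (J + 1)) * C := by
  obtain ⟨M, hM, hgeo⟩ := geo n hn c0 R κ l1 l2 hc0 hκ hκc hl1 hl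
  obtain ⟨CK, hCK, hker⟩ := ker_bdd hn μ1 μ2 p hp q hq κ hκ C1 s0 hC1 hs0 hs0' hG1 hG2 h1 h2
  refine ⟨ENNReal.ofReal (M * (1 + CK)), ENNReal.ofReal_ne_top, fun J => ?_⟩
  set P := μ1.prod μ2 with hP
  set δ : ℝ := tau κ (J + 1) with hδ
  have hδp : 0 < δ := tau_pos hκ _
  set S : Set (ℝ × ((X × X) × (X × X))) := {y | |ff p q y.1 y.2.1 - ff p q y.1 y.2.2| ≤ δ} with hS
  have hSm : MeasurableSet S := by
    refine measurableSet_le ?_ measurable_const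
    unfold ff
    fun_prop
  have e1 : ∫⁻ t in Icc l1 l2, (P.prod P) {r | |ff p q t r.1 - ff p q t r.2| ≤ δ} =
      ((volume.restrict (Icc l1 l2)).prod (P.prod P)) S := by
    rw [Measure.prod_apply hSm]
    rfl
  have e2 : ((volume.restrict (Icc l1 l2)).prod (P.prod P)) S =
      ∫⁻ r, (volume.restrict (Icc l1 l2)) ((fun t => (t, r)) ⁻¹' S) ∂(P.prod P) :=
    Measure.prod_apply_symm hSm
  rw [e1, e2]
  have hae : ∀ᵐ r ∂(P.prod P), (volume.restrict (Icc l1 l2)) ((fun t => (t, r)) ⁻¹' S) ≤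
      ENNReal.ofReal (δ * (M * (1 + ker κ J (p r.1.1 - p r.1.2) (p r.2.1 - p r.2.2)
      ((q r.1.1 - q r.1.2) - (q r.2.1 - q r.2.2))))) := by
    have a1 : ∀ᵐ r ∂(P.prod P), c0 ≤ ‖p r.1.1 - p r.1.2‖ ∧ ‖p r.1.1 - p r.1.2‖ ≤ R ∧
        c0 ≤ q r.1.1 - q r.1.2 ∧ q r.1.1 - q r.1.2 ≤ R :=
      Measure.quasiMeasurePreserving_fst.ae hsep
    have a2 : ∀ᵐ r ∂(P.prod P), c0 ≤ ‖p r.2.1 - p r.2.2‖ ∧ ‖p r.2.1 - p r.2.2‖ ≤ R ∧
        c0 ≤ q r.2.1 - q r.2.2 ∧ q r.2.1 - q r.2.2 ≤ R :=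
      Measure.quasiMeasurePreserving_snd.ae hsep
    filter_upwards [a1, a2] with r b1 b2
    have hms : MeasurableSet ((fun t : ℝ => (t, r)) ⁻¹' S) := hSm.preimage measurable_prodMk_right
    rw [Measure.restrict_apply hms]
    exact hgeo J (p r.1.1 - p r.1.2) (p r.2.1 - p r.2.2) (q r.1.1 - q r.1.2) (q r.2.1 - q r.2.2)
      b1.1 b1.2.1 b2.1 b2.2.1 b1.2.2.1 b1.2.2.2 b2.2.2.1 b2.2.2.2
  have hki := ker_integrable P p hp q hq κ J
  have hint : Integrable (fun r : (X × X) × (X × X) => δ * (M * (1 + ker κ J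
      (p r.1.1 - p r.1.2) (p r.2.1 - p r.2.2)
      ((q r.1.1 - q r.1.2) - (q r.2.1 - q r.2.2))))) (P.prod P) :=
    (((integrable_const _).add hki).const_mul _).const_mul _
  refine (lintegral_mono_ae hae).trans ?_
  rw [← ofReal_integral_eq_lintegral_ofReal hint, ← ENNReal.ofReal_mul hδp.le]
  · apply ENNReal.ofReal_le_ofReal
    rw [integral_const_mul, integral_const_mul, integral_add (integrable_const _) hki]
    have := hker J
    simp only [integral_const, probReal_univ, smul_eq_mul, mul_one]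
    gcongr
  · refine Eventually.of_forall fun r => ?_
    have := ker_nonneg hκ J (p r.1.1 - p r.1.2) (p r.2.1 - p r.2.2)
      ((q r.1.1 - q r.1.2) - (q r.2.1 - q r.2.2))
    simp only [Pi.zero_apply]
    positivity

end Pool.Agent.Y270.FD
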