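import Mathlib
import Pool.Agent.Y270.FD.Col
import Pool.Agent.H744R2.Falc.Gauss

set_option autoImplicit false

/-! Splitting off one direction; tubes; Gaussian energies of Frostman measures. -/

namespace Pool.Agent.Y270.FD

open MeasureTheory Set Metric Filter Topology
open scoped ENNReal RealInnerProductSpace
open Pool.Agent.H789R2.FR

/-- coordinates orthogonal to the unit vector `e` -/
lemma exists_split (n : ℕ) (e : E (n + 1)) (he : ‖e‖ = 1) :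
    ∃ p : E (n + 1) →L[ℝ] E n, ∀ x, ‖x‖ ^ 2 = ‖p x‖ ^ 2 + ⟪x, e⟫ ^ 2 := by
  have : Fact (Module.finrank ℝ (E (n + 1)) = n + 1) := ⟨by simp⟩
  have he0 : e ≠ 0 := by
    rintro rfl
    simp at he
  set b := OrthonormalBasis.fromOrthogonalSpanSingleton (𝕜 := ℝ) n he0 with hb
  refine ⟨(b.repr.toContinuousLinearEquiv : (ℝ ∙ e)ᗮ →L[ℝ] E n) ∘L
      (ℝ ∙ e)ᗮ.orthogonalProjectionOnto,
    fun x => ?_⟩
  have h1 := Submodule.norm_sq_eq_add_norm_sq_projection x (ℝ ∙ e)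
  have h2 : ‖(ℝ ∙ e).orthogonalProjectionOnto x‖ ^ 2 = ⟪x, e⟫ ^ 2 := by
    have h3 : (((ℝ ∙ e).orthogonalProjectionOnto x : (ℝ ∙ e)) : E (n + 1)) = ⟪e, x⟫ • e :=
      Submodule.starProjection_unit_singleton ℝ he x
    have h4 : ‖(((ℝ ∙ e).orthogonalProjectionOnto x : (ℝ ∙ e)) : E (n + 1))‖ = |⟪e, x⟫| := by
      rw [h3, norm_smul, he, mul_one, Real.norm_eq_abs]
    have h5 : ‖(ℝ ∙ e).orthogonalProjectionOnto x‖ = |⟪e, x⟫| := h4
    rw [h5, sq_abs, real_inner_comm]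
  rw [h1, h2, add_comm]
  congr 2
  simp

variable {n : ℕ}

/-- the stretched squared norm -/
lemma stretch_sq (e : E (n + 1)) (he : ‖e‖ = 1) (p : E (n + 1) →L[ℝ] E n)
    (hp : ∀ x, ‖x‖ ^ 2 = ‖p x‖ ^ 2 + ⟪x, e⟫ ^ 2) (t : ℝ) (x y : E (n + 1)) :
    dist (x + ((t - 1) * ⟪x, e⟫) • e) (y + ((t - 1) * ⟪y, e⟫) • e) ^ 2 =
      ‖p x - p y‖ ^ 2 + t ^ 2 * (⟪x, e⟫ - ⟪y, e⟫) ^ 2 := by
  have hee : ⟪e, e⟫ = 1 := by rw [real_inner_self_eq_norm_sq, he]; norm_num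
  have h1 : (x + ((t - 1) * ⟪x, e⟫) • e) - (y + ((t - 1) * ⟪y, e⟫) • e) =
      (x - y) + ((t - 1) * ⟪x - y, e⟫) • e := by
    rw [inner_sub_left]
    module
  have h2 := hp (x - y)
  rw [dist_eq_norm, h1, norm_add_sq_real, norm_smul, he, inner_smul_right, h2, map_sub,
    inner_sub_left, Real.norm_eq_abs, mul_one, sq_abs]
  ring

lemma p_lip (e : E (n + 1)) (p : E (n + 1) →L[ℝ] E n)
    (hp : ∀ x, ‖x‖ ^ 2 = ‖p x‖ ^ 2 + ⟪x, e⟫ ^ 2) (x : E (n + 1)) : ‖p x‖ ≤ ‖x‖ := by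
  have h := hp x
  have : 0 ≤ ⟪x, e⟫ ^ 2 := by positivity
  exact le_of_sq_le_sq (by linarith) (norm_nonneg _)

lemma q_lip (e : E (n + 1)) (p : E (n + 1) →L[ℝ] E n)
    (hp : ∀ x, ‖x‖ ^ 2 = ‖p x‖ ^ 2 + ⟪x, e⟫ ^ 2) (x : E (n + 1)) : |⟪x, e⟫| ≤ ‖x‖ := by
  have h := hp x
  have : 0 ≤ ‖p x‖ ^ 2 := by positivity
  apply le_of_sq_le_sq _ (norm_nonneg _)
  rw [sq_abs]
  linarith

theorem tube (e : E (n + 1)) (p : E (n + 1) →L[ℝ] E n)
    (hp : ∀ x, ‖x‖ ^ 2 = ‖p x‖ ^ 2 + ⟪x, e⟫ ^ 2) (μ : Measure (E (n + 1)))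
    (R0 C s : ℝ) (hR0 : 0 < R0) (hC : 0 < C)
    (hsupp : μ (closedBall 0 R0)ᶜ = 0)
    (hgr : ∀ x r, 0 < r → μ (closedBall x r) ≤ ENNReal.ofReal (C * r ^ s)) (c : E n) (ρ : ℝ)
    (hρ : 0 < ρ) (hρ1 : ρ ≤ 1) :
    μ {x | ‖p x - c‖ ≤ ρ} ≤ ENNReal.ofReal ((2 * R0 + 3) * C * 4 ^ s * ρ ^ (s - 1)) := by
  set N : ℤ := ⌈R0 / ρ⌉ with hN
  have hN0 : 0 ≤ N := Int.ceil_nonneg (by positivity)
  set Q : ℤ → Set (E (n + 1)) := fun k => {x | ‖p x - c‖ ≤ ρ ∧ ⌊⟪x, e⟫ / ρ⌋ = k} with hQ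
  have hsub : {x | ‖p x - c‖ ≤ ρ} ⊆ (closedBall 0 R0)ᶜ ∪ ⋃ k ∈ Finset.Icc (-N) N, Q k := by
    intro x hx
    by_cases hxB : x ∈ closedBall (0 : E (n + 1)) R0
    · right
      rw [mem_closedBall_zero_iff] at hxB
      have h1 := (q_lip e p hp x).trans hxB
      rw [abs_le] at h1
      simp only [mem_iUnion, exists_prop]
      refine ⟨⌊⟪x, e⟫ / ρ⌋, ?_, hx, rfl⟩
      rw [Finset.mem_Icc]
      constructor
      · rw [hN, ← Int.floor_neg]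
        apply Int.floor_le_floor
        rw [← neg_div]
        gcongr
        exact h1.1
      · refine (Int.floor_le_floor (b := R0 / ρ) (by gcongr; exact h1.2)).trans ?_
        exact Int.floor_le_ceil _
    · left; exact hxB
  have hpiece : ∀ k, μ (Q k) ≤ ENNReal.ofReal (C * (4 * ρ) ^ s) := by
    intro k
    rcases (Q k).eq_empty_or_nonempty with h0 | ⟨x0, hx0, hk0⟩
    · rw [h0, measure_empty]; exact zero_le
    · refine (measure_mono ?_).trans (hgr x0 (4 * ρ) (by positivity))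
      rintro x ⟨hx, hk⟩
      rw [mem_closedBall, dist_eq_norm]
      apply le_of_sq_le_sq _ (by positivity)
      rw [hp (x - x0), map_sub, inner_sub_left]
      have h1 : ‖p x - p x0‖ ≤ 2 * ρ := by
        calc ‖p x - p x0‖ = ‖(p x - c) - (p x0 - c)‖ := by congr 1; abel
          _ ≤ ‖p x - c‖ + ‖p x0 - c‖ := norm_sub_le _ _
          _ ≤ 2 * ρ := by linarith
      have h2 : |⟪x, e⟫ - ⟪x0, e⟫| ≤ ρ := by
        have h3 : |⟪x, e⟫ / ρ - ⟪x0, e⟫ / ρ| < 1 := by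
          apply Int.abs_sub_lt_one_of_floor_eq_floor
          rw [hk, hk0]
        rw [← sub_div, abs_div, abs_of_pos hρ, div_lt_one hρ] at h3
        exact h3.le
      have h4 : ‖p x - p x0‖ ^ 2 ≤ (2 * ρ) ^ 2 := pow_le_pow_left₀ (norm_nonneg _) h1 2
      have h5 : (⟪x, e⟫ - ⟪x0, e⟫) ^ 2 ≤ ρ ^ 2 := by
        rw [← sq_abs]
        exact pow_le_pow_left₀ (abs_nonneg _) h2 2
      nlinarith
  have hcard : ((Finset.Icc (-N) N).card : ℝ) ≤ (2 * R0 + 3) / ρ := by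
    rw [Int.card_Icc]
    have h1 : (((N + 1 - -N).toNat : ℤ) : ℝ) = 2 * (N : ℝ) + 1 := by
      rw [Int.toNat_of_nonneg (by omega)]
      push_cast
      ring
    have h2 : (((N + 1 - -N).toNat : ℕ) : ℝ) = 2 * (N : ℝ) + 1 := by
      rw [← h1]; norm_cast
    rw [h2]
    have h3 : (N : ℝ) < R0 / ρ + 1 := Int.ceil_lt_add_one _
    have h4 : (2 * R0 + 3) / ρ = 2 * (R0 / ρ) + 3 / ρ := by ring
    have h5 : 3 ≤ 3 / ρ := by rw [le_div_iff₀ hρ]; linarith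
    rw [h4]
    linarith
  calc μ {x | ‖p x - c‖ ≤ ρ} ≤ μ ((closedBall 0 R0)ᶜ ∪ ⋃ k ∈ Finset.Icc (-N) N, Q k) :=
        measure_mono hsub
    _ ≤ μ (closedBall 0 R0)ᶜ + μ (⋃ k ∈ Finset.Icc (-N) N, Q k) := measure_union_le _ _
    _ ≤ 0 + ∑ k ∈ Finset.Icc (-N) N, μ (Q k) := by
        gcongr
        · exact hsupp.le
        · exact measure_biUnion_finset_le _ _
    _ ≤ ∑ k ∈ Finset.Icc (-N) N, ENNReal.ofReal (C * (4 * ρ) ^ s) := by
        rw [zero_add]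
        exact Finset.sum_le_sum fun k _ => hpiece k
    _ = ENNReal.ofReal ((Finset.Icc (-N) N).card * (C * (4 * ρ) ^ s)) := by
        rw [Finset.sum_const, nsmul_eq_mul,
          ENNReal.ofReal_mul (p := ((Finset.Icc (-N) N).card : ℝ)) (by positivity),
          ENNReal.ofReal_natCast]
    _ ≤ ENNReal.ofReal ((2 * R0 + 3) / ρ * (C * (4 * ρ) ^ s)) := by gcongr
    _ = _ := by
        congr 1
        rw [Real.mul_rpow (by norm_num) hρ.le, Real.rpow_sub hρ, Real.rpow_one]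
        field_simp

theorem tube_prod (e : E (n + 1)) (p : E (n + 1) →L[ℝ] E n)
    (hp : ∀ x, ‖x‖ ^ 2 = ‖p x‖ ^ 2 + ⟪x, e⟫ ^ 2) (μ : Measure (E (n + 1)))
    [IsProbabilityMeasure μ] (R0 C s : ℝ) (hR0 : 0 < R0) (hC : 0 < C)
    (hsupp : μ (closedBall 0 R0)ᶜ = 0)
    (hgr : ∀ x r, 0 < r → μ (closedBall x r) ≤ ENNReal.ofReal (C * r ^ s)) (ρ : ℝ)
    (hρ : 0 < ρ) (hρ1 : ρ ≤ 1) :
    (μ.prod μ) {r | ‖p r.1 - p r.2‖ ≤ ρ} ≤
      ENNReal.ofReal ((2 * R0 + 3) * C * 4 ^ s * ρ ^ (s - 1)) := by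
  have hm : MeasurableSet {r : E (n + 1) × E (n + 1) | ‖p r.1 - p r.2‖ ≤ ρ} :=
    measurableSet_le (by fun_prop) measurable_const
  rw [Measure.prod_apply_symm hm]
  calc ∫⁻ y, μ ((fun x => (x, y)) ⁻¹' {r | ‖p r.1 - p r.2‖ ≤ ρ}) ∂μ
      ≤ ∫⁻ _y, ENNReal.ofReal ((2 * R0 + 3) * C * 4 ^ s * ρ ^ (s - 1)) ∂μ :=
        lintegral_mono fun y => tube e p hp μ R0 C s hR0 hC hsupp hgr (p y) ρ hρ hρ1
    _ = _ := by simp

theorem tube_diag (e : E (n + 1)) (p : E (n + 1) →L[ℝ] E n)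
    (hp : ∀ x, ‖x‖ ^ 2 = ‖p x‖ ^ 2 + ⟪x, e⟫ ^ 2) (μ : Measure (E (n + 1)))
    [IsProbabilityMeasure μ] (R0 C s : ℝ) (hR0 : 0 < R0) (hC : 0 < C) (hs : 1 < s)
    (hsupp : μ (closedBall 0 R0)ᶜ = 0)
    (hgr : ∀ x r, 0 < r → μ (closedBall x r) ≤ ENNReal.ofReal (C * r ^ s)) :
    (μ.prod μ) {r | p r.1 = p r.2} = 0 := by
  have h1 : ∀ k : ℕ, (μ.prod μ) {r | p r.1 = p r.2} ≤
      ENNReal.ofReal ((2 * R0 + 3) * C * 4 ^ s * ((1 / 2) ^ k : ℝ) ^ (s - 1)) := by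
    intro k
    refine (measure_mono ?_).trans (tube_prod e p hp μ R0 C s hR0 hC hsupp hgr ((1 / 2) ^ k)
      (by positivity) (pow_le_one₀ (by norm_num) (by norm_num)))
    intro r hr
    rw [Set.mem_ofPred_eq] at hr ⊢
    rw [hr, sub_self, norm_zero]
    positivity
  have h2 : Tendsto (fun k : ℕ => ENNReal.ofReal ((2 * R0 + 3) * C * 4 ^ s *
      ((1 / 2) ^ k : ℝ) ^ (s - 1))) atTop (𝓝 0) := by
    rw [← ENNReal.ofReal_zero]
    apply ENNReal.tendsto_ofReal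
    have h3 : Tendsto (fun k : ℕ => ((1 / 2) ^ k : ℝ) ^ (s - 1)) atTop (𝓝 0) := by
      have h4 : Tendsto (fun k : ℕ => ((1 / 2) ^ k : ℝ)) atTop (𝓝 0) :=
        tendsto_pow_atTop_nhds_zero_of_lt_one (by norm_num) (by norm_num)
      have h5 := h4.rpow_const (p := s - 1) (Or.inr (by linarith))
      rwa [Real.zero_rpow (by linarith)] at h5
    have := h3.const_mul ((2 * R0 + 3) * C * 4 ^ s)
    rwa [mul_zero] at this
  exact le_antisymm (ge_of_tendsto' h2 h1) (zero_le)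

theorem gen_bound (e : E (n + 1)) (p : E (n + 1) →L[ℝ] E n)
    (hp : ∀ x, ‖x‖ ^ 2 = ‖p x‖ ^ 2 + ⟪x, e⟫ ^ 2) (μ : Measure (E (n + 1)))
    [IsProbabilityMeasure μ] (C s : ℝ) (hC : 0 < C) (hs : 0 ≤ s)
    (hgr : ∀ x r, 0 < r → μ (closedBall x r) ≤ ENNReal.ofReal (C * r ^ s)) :
    ∃ C' : ℝ, 0 < C' ∧ ∀ a b : ℝ, 0 < b → b ≤ a → Gen μ p (fun x => ⟪x, e⟫) a b ≤ C' * a ^ s := by
  obtain ⟨C', hC', hG⟩ := Pool.Agent.H744R2.Falc.gauss_frostman μ C s hC hs hgr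
  refine ⟨C', hC', fun a b hb hba => ?_⟩
  have ha : 0 < a := lt_of_lt_of_le hb hba
  have hint : Integrable (fun r : E (n + 1) × E (n + 1) =>
      Real.exp (-(a⁻¹ ^ 2 * dist r.1 r.2 ^ 2))) (μ.prod μ) := by
    refine Integrable.of_bound (C := 1) (by fun_prop) ?_
    refine Eventually.of_forall fun r => ?_
    rw [Real.norm_eq_abs, abs_of_pos (Real.exp_pos _)]
    exact Real.exp_le_one_iff.2 (by
      have : 0 ≤ a⁻¹ ^ 2 * dist r.1 r.2 ^ 2 := by positivity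
      linarith)
  calc Gen μ p (fun x => ⟪x, e⟫) a b
      ≤ ∫ r : E (n + 1) × E (n + 1), Real.exp (-(a⁻¹ ^ 2 * dist r.1 r.2 ^ 2)) ∂(μ.prod μ) := by
        unfold Gen
        apply integral_mono_of_nonneg
        · exact Eventually.of_forall fun r => by positivity
        · exact hint
        · refine Eventually.of_forall fun r => ?_
          simp only
          rw [← Real.exp_add]
          apply Real.exp_le_exp.2
          rw [dist_eq_norm, hp (r.1 - r.2), map_sub, inner_sub_left]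
          have h1 : (⟪r.1, e⟫ - ⟪r.2, e⟫) ^ 2 / a ^ 2 ≤ (⟪r.1, e⟫ - ⟪r.2, e⟫) ^ 2 / b ^ 2 := by
            gcongr
          have h2 : a⁻¹ ^ 2 * (‖p r.1 - p r.2‖ ^ 2 + (⟪r.1, e⟫ - ⟪r.2, e⟫) ^ 2) =
            ‖p r.1 - p r.2‖ ^ 2 / a ^ 2 + (⟪r.1, e⟫ - ⟪r.2, e⟫) ^ 2 / a ^ 2 := by
            rw [inv_pow]; ring
          rw [h2]
          linarith
    _ = ∫ y, (∫ x, Real.exp (-(a⁻¹ ^ 2 * dist x y ^ 2)) ∂μ) ∂μ := by
        rw [integral_prod_symm _ hint]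
    _ ≤ ∫ _y, C' * a ^ s ∂μ := by
        apply integral_mono_of_nonneg
        · exact Eventually.of_forall fun y => integral_nonneg fun _ => (Real.exp_pos _).le
        · exact integrable_const _
        · refine Eventually.of_forall fun y => ?_
          have := hG a⁻¹ y (by positivity)
          rwa [Real.inv_rpow ha.le, Real.rpow_neg ha.le, inv_inv] at this
    _ = C' * a ^ s := by simp

end Pool.Agent.Y270.FD
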