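import Mathlib
import Pool.Agent.Y270.FD.Spl
import Pool.Agent.Y270.FD.Abs
import Pool.Agent.H744R2.Falc.Final
import Pool.Agent.H744R2.Falc.Assembly
import Pool.Agent.H744R2.Falc.FrostH

set_option autoImplicit false

/-! Assembly: Falconer's distance problem for almost every stretch in one direction. -/

namespace Pool.Agent.Y270.FD

open MeasureTheory Set Metric Filter Topology
open scoped ENNReal RealInnerProductSpace
open Pool.Agent.H789R2.FR
open Pool.Agent.H744R2.Falc (Fro addDist positive_step frostman_dimH)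

variable {n : ℕ}

/-- squared distances of the stretched set -/
noncomputable def Dt (A : Set (E (n + 1))) (e : E (n + 1)) (p : E (n + 1) →L[ℝ] E n) (t : ℝ) :
    Set ℝ :=
  (fun ω : E (n + 1) × E (n + 1) => ff p (fun x => ⟪x, e⟫) t ω) '' (A ×ˢ A)

lemma Dt_compact (A : Set (E (n + 1))) (hA : IsCompact A) (e : E (n + 1))
    (p : E (n + 1) →L[ℝ] E n) (t : ℝ) : IsCompact (Dt A e p t) := by
  apply (hA.prod hA).image
  unfold ff
  fun_prop

lemma Dt_neg (A : Set (E (n + 1))) (e : E (n + 1)) (p : E (n + 1) →L[ℝ] E n) (t : ℝ) :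
    Dt A e p (-t) = Dt A e p t := by
  unfold Dt ff
  simp only [neg_sq]

lemma cond_growth (μ : Measure (E (n + 1))) [IsProbabilityMeasure μ] (C s : ℝ) (hC : 0 < C)
    (hgr : ∀ x r, 0 < r → μ (closedBall x r) ≤ ENNReal.ofReal (C * r ^ s))
    (S : Set (E (n + 1))) (hS : MeasurableSet S) (hS0 : μ S ≠ 0) :
    ∃ C' : ℝ, 0 < C' ∧ ∀ x r, 0 < r →
      ProbabilityTheory.cond μ S (closedBall x r) ≤ ENNReal.ofReal (C' * r ^ s) := by
  have hinv : (μ S)⁻¹ ≠ ⊤ := ENNReal.inv_ne_top.2 hS0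
  refine ⟨(μ S)⁻¹.toReal * C + C, by positivity, fun x r hr => ?_⟩
  rw [ProbabilityTheory.cond_apply hS]
  calc (μ S)⁻¹ * μ (S ∩ closedBall x r) ≤ (μ S)⁻¹ * ENNReal.ofReal (C * r ^ s) := by
        gcongr
        exact (measure_mono inter_subset_right).trans (hgr x r hr)
    _ = ENNReal.ofReal ((μ S)⁻¹.toReal * C * r ^ s) := by
        rw [mul_assoc, ENNReal.ofReal_mul ENNReal.toReal_nonneg, ENNReal.ofReal_toReal hinv]
    _ ≤ _ := by
        apply ENNReal.ofReal_le_ofReal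
        have : 0 ≤ C * r ^ s := by positivity
        linarith

theorem gp_case (hn : 1 ≤ n) (e : E (n + 1)) (p : E (n + 1) →L[ℝ] E n)
    (hp : ∀ x, ‖x‖ ^ 2 = ‖p x‖ ^ 2 + ⟪x, e⟫ ^ 2) (A : Set (E (n + 1))) (hA : IsCompact A)
    (μ1 μ2 : Measure (E (n + 1))) [IsProbabilityMeasure μ1] [IsProbabilityMeasure μ2]
    (hμ1 : μ1 Aᶜ = 0) (hμ2 : μ2 Aᶜ = 0) (C1 C2 s : ℝ) (hC1 : 0 < C1) (hC2 : 0 < C2)
    (hs : ((n : ℝ) + 1) / 2 < s) (hs' : s ≤ ((n : ℝ) + 3) / 2)
    (hgr1 : ∀ x r, 0 < r → μ1 (closedBall x r) ≤ ENNReal.ofReal (C1 * r ^ s))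
    (hgr2 : ∀ x r, 0 < r → μ2 (closedBall x r) ≤ ENNReal.ofReal (C2 * r ^ s))
    (c0 : ℝ) (hc0 : 0 < c0)
    (hsep : ∀ᵐ r ∂(μ1.prod μ2), c0 ≤ ‖p r.1 - p r.2‖ ∧ c0 ≤ ⟪r.1, e⟫ - ⟪r.2, e⟫) :
    ∀ᵐ t : ℝ, 0 < volume (Dt A e p t) := by
  have hn1 : (1 : ℝ) ≤ n := by exact_mod_cast hn
  set q : E (n + 1) → ℝ := fun x => ⟪x, e⟫ with hq
  have hqm : Measurable q := by rw [hq]; fun_prop
  have hpm : Measurable p := p.continuous.measurable
  obtain ⟨R, hR⟩ := hA.isBounded.subset_closedBall 0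
  set R0 : ℝ := max R 1 with hR0
  have hR0p : 0 < R0 := lt_of_lt_of_le one_pos (le_max_right _ _)
  have hAR : A ⊆ closedBall 0 R0 := hR.trans (closedBall_subset_closedBall (le_max_left _ _))
  have hsupp1 : μ1 (closedBall 0 R0)ᶜ = 0 := measure_mono_null (compl_subset_compl.2 hAR) hμ1
  have hsupp2 : μ2 (closedBall 0 R0)ᶜ = 0 := measure_mono_null (compl_subset_compl.2 hAR) hμ2
  have ha1 : ∀ᵐ x ∂μ1, x ∈ A := by rw [ae_iff]; exact hμ1
  have ha2 : ∀ᵐ x ∂μ2, x ∈ A := by rw [ae_iff]; exact hμ2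
  have hprod : ∀ᵐ r ∂(μ1.prod μ2), r.1 ∈ A ∧ r.2 ∈ A := by
    have a1 : ∀ᵐ r ∂(μ1.prod μ2), r.1 ∈ A := Measure.quasiMeasurePreserving_fst.ae ha1
    have a2 : ∀ᵐ r ∂(μ1.prod μ2), r.2 ∈ A := Measure.quasiMeasurePreserving_snd.ae ha2
    filter_upwards [a1, a2] with r b1 b2 using ⟨b1, b2⟩
  have hsep' : ∀ᵐ r ∂(μ1.prod μ2), c0 ≤ ‖p r.1 - p r.2‖ ∧ ‖p r.1 - p r.2‖ ≤ 2 * R0 ∧
      c0 ≤ q r.1 - q r.2 ∧ q r.1 - q r.2 ≤ 2 * R0 := by
    filter_upwards [hsep, hprod] with r h1 h2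
    have h3 := hAR h2.1
    have h4 := hAR h2.2
    rw [mem_closedBall_zero_iff] at h3 h4
    have h5 := p_lip e p hp r.1
    have h6 := p_lip e p hp r.2
    have h7 := (abs_le.1 (q_lip e p hp r.1)).2
    have h8 := (abs_le.1 (q_lip e p hp r.2)).1
    refine ⟨h1.1, ?_, h1.2, ?_⟩
    · exact (norm_sub_le _ _).trans (by linarith)
    · simp only [hq]; linarith
  obtain ⟨G1, hG1, hg1⟩ := gen_bound e p hp μ1 C1 s hC1 (by linarith) hgr1
  obtain ⟨G2, hG2, hg2⟩ := gen_bound e p hp μ2 C2 s hC2 (by linarith) hgr2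
  set T1 : ℝ := (2 * R0 + 3) * C1 * 4 ^ s with hT1
  set T2 : ℝ := (2 * R0 + 3) * C2 * 4 ^ s with hT2
  have hT1p : 0 < T1 := by positivity
  have hT2p : 0 < T2 := by positivity
  set CC : ℝ := G1 + G2 + T1 + T2 with hCC
  have hCCp : 0 < CC := by positivity
  have key : ∀ l1 l2 : ℝ, 0 < l1 → l1 ≤ l2 →
      ∀ᵐ t ∂(volume.restrict (Icc l1 l2)), 0 < volume (Dt A e p t) := by
    intro l1 l2 hl1 hl
    obtain ⟨C, hC, hcol⟩ := col hn μ1 μ2 p hpm q hqm c0 hc0 CC s hCCp hs' hs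
      (fun a b hb hba => (hg1 a b hb hba).trans (by
        have ha : 0 < a := lt_of_lt_of_le hb hba
        gcongr
        rw [hCC]; linarith))
      (fun a b hb hba => (hg2 a b hb hba).trans (by
        have ha : 0 < a := lt_of_lt_of_le hb hba
        gcongr
        rw [hCC]; linarith))
      (fun k => (tube_prod e p hp μ1 R0 C1 s hR0p hC1 hsupp1 hgr1 (tau 1 k) (tau_pos one_pos k)
        (tau_le one_pos k)).trans (by
        apply ENNReal.ofReal_le_ofReal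
        have := tau_pos one_pos k
        gcongr
        rw [hCC]; linarith))
      (fun k => (tube_prod e p hp μ2 R0 C2 s hR0p hC2 hsupp2 hgr2 (tau 1 k) (tau_pos one_pos k)
        (tau_le one_pos k)).trans (by
        apply ENNReal.ofReal_le_ofReal
        have := tau_pos one_pos k
        gcongr
        rw [hCC]; linarith))
      c0 (2 * R0) l1 l2 hc0 le_rfl hl1 hl hsep'
    refine ae_pos (μ1.prod μ2) (Icc l1 l2) (ff p q) (ff_meas p hpm q hqm) (Dt A e p)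
      (Dt_compact A hA e p) ?_ (fun j => tau c0 (j + 1)) (fun j => tau_pos hc0 _) ?_ C hC hcol
    · intro t
      filter_upwards [hprod] with r hr
      exact ⟨r, ⟨hr.1, hr.2⟩, rfl⟩
    · have h1 : Tendsto (fun j : ℕ => ((1 : ℝ) / 2) ^ j) atTop (𝓝 0) :=
        tendsto_pow_atTop_nhds_zero_of_lt_one (by norm_num) (by norm_num)
      have h2 := (tendsto_add_atTop_iff_nat 1).2 h1
      have h3 := h2.const_mul c0
      rw [mul_zero] at h3
      exact h3
  have hpos : ∀ᵐ t : ℝ, 0 < t → 0 < volume (Dt A e p t) := by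
    have h1 : ∀ k : ℕ, ∀ᵐ t : ℝ, t ∈ Icc (1 / ((k : ℝ) + 1)) ((k : ℝ) + 1) →
        0 < volume (Dt A e p t) := by
      intro k
      rw [← ae_restrict_iff' measurableSet_Icc]
      apply key _ _ (by positivity)
      rw [div_le_iff₀ (by positivity)]
      have : (0 : ℝ) ≤ k := Nat.cast_nonneg k
      nlinarith
    filter_upwards [ae_all_iff.2 h1] with t ht ht0
    obtain ⟨k, hk⟩ := exists_nat_gt (max t (1 / t))
    have hk1 := (le_max_left t (1 / t)).trans hk.le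
    have hk2 := (le_max_right t (1 / t)).trans hk.le
    apply ht k
    constructor
    · rw [div_le_iff₀ (by positivity)]
      rw [div_le_iff₀ ht0] at hk2
      nlinarith
    · linarith
  have hneg : ∀ᵐ t : ℝ, 0 < -t → 0 < volume (Dt A e p (-t)) :=
    (Measure.measurePreserving_neg (volume : Measure ℝ)).quasiMeasurePreserving.ae hpos
  have h0 : ∀ᵐ t : ℝ, t ≠ 0 := by
    rw [ae_iff]
    simp
  filter_upwards [hpos, hneg, h0] with t h1 h2 h3
  rcases lt_or_gt_of_ne h3 with h | h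
  · rw [← Dt_neg]
    exact h2 (by linarith)
  · exact h1 h

lemma fro_dirac : Fro ({0} : Set ℝ) 0 := by
  refine ⟨Measure.dirac 0, inferInstance, by simp, 1, one_pos, fun x r hr => ?_⟩
  rw [Real.rpow_zero, mul_one, ENNReal.ofReal_one]
  exact prob_le_one

theorem slice_case (hn : 1 ≤ n) (e : E (n + 1)) (p : E (n + 1) →L[ℝ] E n)
    (hp : ∀ x, ‖x‖ ^ 2 = ‖p x‖ ^ 2 + ⟪x, e⟫ ^ 2) (A : Set (E (n + 1))) (hA : IsCompact A)
    (μ : Measure (E (n + 1))) [IsProbabilityMeasure μ]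
    (hμ : μ Aᶜ = 0) (C s : ℝ) (hC : 0 < C) (hs : ((n : ℝ) + 1) / 2 < s)
    (hgr : ∀ x r, 0 < r → μ (closedBall x r) ≤ ENNReal.ofReal (C * r ^ s))
    (c : ℝ) (hc : μ {x | ⟪x, e⟫ = c} ≠ 0) (t : ℝ) : 0 < volume (Dt A e p t) := by
  have hn1 : (1 : ℝ) ≤ n := by exact_mod_cast hn
  set S : Set (E (n + 1)) := A ∩ {x | ⟪x, e⟫ = c} with hS
  have hcl : IsClosed {x : E (n + 1) | ⟪x, e⟫ = c} := isClosed_eq (by fun_prop) continuous_const
  have hSc : IsCompact S := hA.inter_right hcl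
  have hSm : MeasurableSet S := hSc.isClosed.measurableSet
  have hS0 : μ S ≠ 0 := by
    intro h0
    apply hc
    have h1 : {x : E (n + 1) | ⟪x, e⟫ = c} ⊆ S ∪ Aᶜ := by
      intro x hx
      by_cases hxA : x ∈ A
      · exact Or.inl ⟨hxA, hx⟩
      · exact Or.inr hxA
    exact measure_mono_null h1 (measure_union_null h0 hμ)
  have hprob : IsProbabilityMeasure (ProbabilityTheory.cond μ S) :=
    ProbabilityTheory.cond_isProbabilityMeasure hS0
  have hpm : Measurable p := p.continuous.measurable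
  set F : Set (E n) := p '' S with hF
  have hFc : IsCompact F := hSc.image p.continuous
  have hinv : (μ S)⁻¹ ≠ ⊤ := ENNReal.inv_ne_top.2 hS0
  have hfro : Fro F s := by
    refine ⟨(ProbabilityTheory.cond μ S).map p,
      Measure.isProbabilityMeasure_map hpm.aemeasurable, ?_, (μ S)⁻¹.toReal * (C * 2 ^ s) + 1,
      by positivity, fun y r hr => ?_⟩
    · rw [Measure.map_apply hpm hFc.isClosed.measurableSet.compl, ProbabilityTheory.cond_apply hSm]
      have : S ∩ p ⁻¹' Fᶜ = ∅ := by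
        ext x
        simp only [mem_inter_iff, mem_preimage, mem_compl_iff, mem_empty_iff_false, iff_false,
          not_and, not_not]
        intro hx
        exact ⟨x, hx, rfl⟩
      rw [this]
      simp
    · rw [Measure.map_apply hpm isClosed_closedBall.measurableSet,
        ProbabilityTheory.cond_apply hSm]
      have h1 : μ (S ∩ p ⁻¹' closedBall y r) ≤ ENNReal.ofReal (C * (2 * r) ^ s) := by
        rcases (S ∩ p ⁻¹' closedBall y r).eq_empty_or_nonempty with h0 | ⟨x0, hx0, hy0⟩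
        · rw [h0, measure_empty]; exact zero_le
        · refine (measure_mono ?_).trans (hgr x0 (2 * r) (by positivity))
          rintro x ⟨hx, hy⟩
          rw [mem_closedBall, dist_eq_norm]
          have h2 : ‖x - x0‖ = ‖p x - p x0‖ := by
            have h3 := hp (x - x0)
            have h4 : ⟪x, e⟫ = c := hx.2
            have h5 : ⟪x0, e⟫ = c := hx0.2
            rw [map_sub, inner_sub_left, h4, h5, sub_self] at h3
            have h6 : ‖x - x0‖ ^ 2 = ‖p x - p x0‖ ^ 2 := by rw [h3]; ring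
            exact (sq_eq_sq₀ (norm_nonneg _) (norm_nonneg _)).1 h6
          rw [h2, ← dist_eq_norm]
          rw [mem_preimage, mem_closedBall] at hy hy0
          calc dist (p x) (p x0) ≤ dist (p x) y + dist (p x0) y := dist_triangle_right _ _ _
            _ ≤ 2 * r := by linarith
      calc (μ S)⁻¹ * μ (S ∩ p ⁻¹' closedBall y r)
          ≤ (μ S)⁻¹ * ENNReal.ofReal (C * (2 * r) ^ s) := by gcongr
        _ = ENNReal.ofReal ((μ S)⁻¹.toReal * (C * (2 * r) ^ s)) := by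
            rw [ENNReal.ofReal_mul ENNReal.toReal_nonneg, ENNReal.ofReal_toReal hinv]
        _ ≤ _ := by
            apply ENNReal.ofReal_le_ofReal
            rw [Real.mul_rpow (by norm_num) hr.le]
            have : 0 ≤ r ^ s := by positivity
            nlinarith
  have hpos := positive_step n {0} F isCompact_singleton hFc 0 s le_rfl zero_le_one
    (by linarith) (by linarith) fro_dirac hfro
  refine lt_of_lt_of_le hpos (measure_mono ?_)
  rintro u ⟨v, hv, x, ⟨a, ha, rfl⟩, y, ⟨b, hb, rfl⟩, rfl⟩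
  rw [mem_singleton_iff] at hv
  refine ⟨(a, b), ⟨ha.1, hb.1⟩, ?_⟩
  have h4 : ⟪a, e⟫ = c := ha.2
  have h5 : ⟪b, e⟫ = c := hb.2
  simp only [ff, hv, h4, h5, dist_eq_norm]
  ring

theorem measure_form (hn : 1 ≤ n) (e : E (n + 1)) (p : E (n + 1) →L[ℝ] E n)
    (hp : ∀ x, ‖x‖ ^ 2 = ‖p x‖ ^ 2 + ⟪x, e⟫ ^ 2) (A : Set (E (n + 1))) (hA : IsCompact A)
    (s : ℝ) (hs : ((n : ℝ) + 1) / 2 < s) (hs' : s ≤ ((n : ℝ) + 3) / 2) (hfro : Fro A s) :
    ∀ᵐ t : ℝ, 0 < volume (Dt A e p t) := by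
  have hn1 : (1 : ℝ) ≤ n := by exact_mod_cast hn
  obtain ⟨μ, hμp, hμA, C, hC, hgr⟩ := hfro
  by_cases hslice : ∃ c : ℝ, μ {x | ⟪x, e⟫ = c} ≠ 0
  · obtain ⟨c, hc⟩ := hslice
    exact Eventually.of_forall fun t => slice_case hn e p hp A hA μ hμA C s hC hs hgr c hc t
  push Not at hslice
  obtain ⟨R, hR⟩ := hA.isBounded.subset_closedBall 0
  have hAR : A ⊆ closedBall 0 (max R 1) :=
    hR.trans (closedBall_subset_closedBall (le_max_left _ _))
  have hsupp : μ (closedBall 0 (max R 1))ᶜ = 0 :=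
    measure_mono_null (compl_subset_compl.2 hAR) hμA
  have hd1 : (μ.prod μ) {r | p r.1 = p r.2} = 0 :=
    tube_diag e p hp μ (max R 1) C s (lt_of_lt_of_le one_pos (le_max_right _ _)) hC
      (by linarith) hsupp hgr
  have hd2 : (μ.prod μ) {r | ⟪r.1, e⟫ = ⟪r.2, e⟫} = 0 := by
    have hm : MeasurableSet {r : E (n + 1) × E (n + 1) | ⟪r.1, e⟫ = ⟪r.2, e⟫} :=
      measurableSet_eq_fun (by fun_prop) (by fun_prop)
    rw [Measure.prod_apply_symm hm]
    have : ∀ y : E (n + 1), μ ((fun x => (x, y)) ⁻¹' {r | ⟪r.1, e⟫ = ⟪r.2, e⟫}) = 0 :=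
      fun y => hslice ⟪y, e⟫
    rw [lintegral_congr this, lintegral_zero]
  set G : Set (E (n + 1) × E (n + 1)) := {r | p r.1 = p r.2}ᶜ ∩ {r | ⟪r.1, e⟫ = ⟪r.2, e⟫}ᶜ with hG
  have hG0 : (μ.prod μ) G ≠ 0 := by
    intro h0
    have h1 : (univ : Set (E (n + 1) × E (n + 1))) ⊆ G ∪ ({r | p r.1 = p r.2} ∪
        {r | ⟪r.1, e⟫ = ⟪r.2, e⟫}) := by
      intro r _
      by_cases h2 : r ∈ {r : E (n + 1) × E (n + 1) | p r.1 = p r.2}
      · exact Or.inr (Or.inl h2)
      · by_cases h3 : r ∈ {r : E (n + 1) × E (n + 1) | ⟪r.1, e⟫ = ⟪r.2, e⟫}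
        · exact Or.inr (Or.inr h3)
        · exact Or.inl ⟨h2, h3⟩
    have h4 := measure_mono_null h1 (measure_union_null h0 (measure_union_null hd1 hd2))
    rw [measure_univ] at h4
    exact one_ne_zero h4
  obtain ⟨⟨x0, y0⟩, hxy, hnb⟩ := exists_mem_forall_mem_nhdsWithin_pos_measure hG0
  have hballs : ∀ r : ℝ, 0 < r → μ (closedBall x0 r) ≠ 0 ∧ μ (closedBall y0 r) ≠ 0 := by
    intro r hr
    have h1 : closedBall x0 r ×ˢ closedBall y0 r ∈ 𝓝[G] (x0, y0) :=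
      mem_nhdsWithin_of_mem_nhds (prod_mem_nhds (closedBall_mem_nhds _ hr)
        (closedBall_mem_nhds _ hr))
    have h2 := hnb _ h1
    rw [Measure.prod_prod] at h2
    constructor
    · intro h3; rw [h3, zero_mul] at h2; exact lt_irrefl _ h2
    · intro h3; rw [h3, mul_zero] at h2; exact lt_irrefl _ h2
  -- the symmetric core
  have core : ∀ x1 y1 : E (n + 1), (∀ r : ℝ, 0 < r → μ (closedBall x1 r) ≠ 0) →
      (∀ r : ℝ, 0 < r → μ (closedBall y1 r) ≠ 0) → p x1 ≠ p y1 → ⟪y1, e⟫ < ⟪x1, e⟫ →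
      ∀ᵐ t : ℝ, 0 < volume (Dt A e p t) := by
    intro x1 y1 hb1 hb2 hne hlt
    have h1 : 0 < ‖p x1 - p y1‖ := norm_pos_iff.2 (sub_ne_zero.2 hne)
    have h2 : 0 < ⟪x1, e⟫ - ⟪y1, e⟫ := by linarith
    set c0 : ℝ := min ‖p x1 - p y1‖ (⟪x1, e⟫ - ⟪y1, e⟫) / 2 with hc0
    have hc0p : 0 < c0 := by rw [hc0]; have := lt_min h1 h2; positivity
    have hm1 : 2 * c0 ≤ ‖p x1 - p y1‖ := by rw [hc0]; linarith [min_le_left ‖p x1 - p y1‖ (⟪x1, e⟫ - ⟪y1, e⟫)]
    have hm2 : 2 * c0 ≤ ⟪x1, e⟫ - ⟪y1, e⟫ := by rw [hc0]; linarith [min_le_right ‖p x1 - p y1‖ (⟪x1, e⟫ - ⟪y1, e⟫)]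
    have hrp : 0 < c0 / 2 := by positivity
    set B1 : Set (E (n + 1)) := closedBall x1 (c0 / 2) with hB1
    set B2 : Set (E (n + 1)) := closedBall y1 (c0 / 2) with hB2
    have hB1m : MeasurableSet B1 := isClosed_closedBall.measurableSet
    have hB2m : MeasurableSet B2 := isClosed_closedBall.measurableSet
    have hB10 : μ B1 ≠ 0 := hb1 _ hrp
    have hB20 : μ B2 ≠ 0 := hb2 _ hrp
    have hP1 : IsProbabilityMeasure (ProbabilityTheory.cond μ B1) :=
      ProbabilityTheory.cond_isProbabilityMeasure hB10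
    have hP2 : IsProbabilityMeasure (ProbabilityTheory.cond μ B2) :=
      ProbabilityTheory.cond_isProbabilityMeasure hB20
    obtain ⟨C1, hC1, hg1⟩ := cond_growth μ C s hC hgr B1 hB1m hB10
    obtain ⟨C2, hC2, hg2⟩ := cond_growth μ C s hC hgr B2 hB2m hB20
    have hA1 : ProbabilityTheory.cond μ B1 Aᶜ = 0 := by
      rw [ProbabilityTheory.cond_apply hB1m, measure_mono_null inter_subset_right hμA, mul_zero]
    have hA2 : ProbabilityTheory.cond μ B2 Aᶜ = 0 := by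
      rw [ProbabilityTheory.cond_apply hB2m, measure_mono_null inter_subset_right hμA, mul_zero]
    have hae1 : ∀ᵐ x ∂(ProbabilityTheory.cond μ B1), x ∈ B1 := by
      rw [ae_iff]
      have : {a | a ∉ B1} = B1ᶜ := rfl
      rw [this, ProbabilityTheory.cond_apply hB1m, inter_compl_self, measure_empty, mul_zero]
    have hae2 : ∀ᵐ x ∂(ProbabilityTheory.cond μ B2), x ∈ B2 := by
      rw [ae_iff]
      have : {a | a ∉ B2} = B2ᶜ := rfl
      rw [this, ProbabilityTheory.cond_apply hB2m, inter_compl_self, measure_empty, mul_zero]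
    refine gp_case hn e p hp A hA _ _ hA1 hA2 C1 C2 s hC1 hC2 hs hs' hg1 hg2 c0 hc0p ?_
    have a1 : ∀ᵐ r ∂((ProbabilityTheory.cond μ B1).prod (ProbabilityTheory.cond μ B2)),
      r.1 ∈ B1 := Measure.quasiMeasurePreserving_fst.ae hae1
    have a2 : ∀ᵐ r ∂((ProbabilityTheory.cond μ B1).prod (ProbabilityTheory.cond μ B2)),
      r.2 ∈ B2 := Measure.quasiMeasurePreserving_snd.ae hae2
    filter_upwards [a1, a2] with r b1 b2
    rw [hB1, mem_closedBall, dist_eq_norm] at b1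
    rw [hB2, mem_closedBall, dist_eq_norm] at b2
    have d1 := p_lip e p hp (r.1 - x1)
    have d2 := p_lip e p hp (r.2 - y1)
    have d3 := (abs_le.1 (q_lip e p hp (r.1 - x1))).1
    have d4 := (abs_le.1 (q_lip e p hp (r.2 - y1))).2
    rw [map_sub] at d1 d2
    rw [inner_sub_left] at d3 d4
    constructor
    · have h5 : p x1 - p y1 = (p r.1 - p r.2) - (p r.1 - p x1) + (p r.2 - p y1) := by abel
      have h6 : ‖p x1 - p y1‖ ≤ ‖p r.1 - p r.2‖ + ‖p r.1 - p x1‖ + ‖p r.2 - p y1‖ := by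
        rw [h5]
        exact (norm_add_le _ _).trans (add_le_add_left (norm_sub_le _ _) _)
      linarith
    · linarith
  rcases lt_or_gt_of_ne (show ⟪x0, e⟫ ≠ ⟪y0, e⟫ from hxy.2) with h | h
  · exact core y0 x0 (fun r hr => (hballs r hr).2) (fun r hr => (hballs r hr).1)
      (fun h3 => hxy.1 h3.symm) h
  · exact core x0 y0 (fun r hr => (hballs r hr).1) (fun r hr => (hballs r hr).2)
      (fun h3 => hxy.1 h3) h

theorem main (hn : 1 ≤ n) (A : Set (E (n + 1))) (hA : IsCompact A)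
    (hdim : ((n : ℝ≥0∞) + 1) / 2 < dimH A) (e : E (n + 1)) (he : ‖e‖ = 1) :
    ∀ᵐ t : ℝ, 0 < volume {r : ℝ | ∃ x ∈ A, ∃ y ∈ A,
      r = dist (x + ((t - 1) * ⟪x, e⟫) • e) (y + ((t - 1) * ⟪y, e⟫) • e)} := by
  obtain ⟨p, hp⟩ := exists_split n e he
  obtain ⟨s1, h1, h2⟩ := exists_between hdim
  have hs1 : s1 ≠ ⊤ := ne_top_of_lt h2
  set s : ℝ := min s1.toReal (((n : ℝ) + 3) / 2) with hs
  have hs' : s ≤ ((n : ℝ) + 3) / 2 := min_le_right _ _
  have hlow : ((n : ℝ) + 1) / 2 < s := by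
    rw [hs]
    refine lt_min ?_ (by linarith)
    have h5 := (ENNReal.toReal_lt_toReal (ne_top_of_lt h1) hs1).2 h1
    rw [ENNReal.toReal_div, ENNReal.toReal_add (ENNReal.natCast_ne_top n) ENNReal.one_ne_top] at h5
    simpa using h5
  have hs0 : 0 ≤ s := by
    have : (0 : ℝ) ≤ n := Nat.cast_nonneg n
    linarith
  have hfro : Fro A s := by
    refine frostman_dimH (n + 1) A hA s hs0 (lt_of_le_of_lt ?_ h2)
    calc ENNReal.ofReal s ≤ ENNReal.ofReal s1.toReal := ENNReal.ofReal_le_ofReal (min_le_left _ _)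
      _ = s1 := ENNReal.ofReal_toReal hs1
  filter_upwards [measure_form hn e p hp A hA s hlow hs' hfro] with t ht
  rw [pos_iff_ne_zero] at ht ⊢
  intro h0
  apply ht
  have hsub : Dt A e p t ⊆ (fun r : ℝ => r ^ 2) '' {r : ℝ | ∃ x ∈ A, ∃ y ∈ A,
      r = dist (x + ((t - 1) * ⟪x, e⟫) • e) (y + ((t - 1) * ⟪y, e⟫) • e)} := by
    rintro u ⟨⟨x, y⟩, ⟨hx, hy⟩, rfl⟩
    refine ⟨_, ⟨x, hx, y, hy, rfl⟩, ?_⟩
    simp only [ff]
    exact stretch_sq e he p hp t x y
  refine measure_mono_null hsub ?_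
  refine addHaar_image_eq_zero_of_differentiableOn_of_addHaar_eq_zero volume ?_ h0
  exact (differentiable_id.pow 2).differentiableOn

end Pool.Agent.Y270.FD
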